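import Pool.Agent.H15.G.R_seed8.TH206.Fro.Stmts

/-!
The FKG inequality for the uniform measure on the monomials of degree `k` (helper55, job FRO-FKG).
-/

set_option autoImplicit false

namespace Pool.Agent.TH206.Fro

open Finset

namespace FkgX

/-- the monomial `x_{s 0} ⋯ x_{s (k-1)}` -/
noncomputable def mm {n k : ℕ} (s : Fin k → Fin n) : Fin n →₀ ℕ :=
  ∑ j, Finsupp.single (s j) 1

theorem mm_mem {n k : ℕ} (s : Fin k → Fin n) : mm s ∈ Mon n k := by
  rw [mem_Mon']
  unfold mm
  rw [map_sum]
  simp

theorem mm_toMultiset {n k : ℕ} (s : Fin k → Fin n) :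
    Finsupp.toMultiset (mm s) = (List.ofFn s : Multiset (Fin n)) := by
  unfold mm
  rw [map_sum]
  simp only [Finsupp.toMultiset_single, one_smul]
  have h1 : ∑ j : Fin k, ({s j} : Multiset (Fin n)) = (univ : Finset (Fin k)).val.map s := by
    have h2 := Multiset.sum_map_singleton ((univ : Finset (Fin k)).val.map s)
    rw [Multiset.map_map] at h2
    exact h2
  rw [h1, Fin.univ_val_map]

theorem mm_inj {n k : ℕ} {s t : Fin k → Fin n} (hs : Monotone s) (ht : Monotone t)
    (h : mm s = mm t) : s = t := by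
  have h1 : (List.ofFn s : Multiset (Fin n)) = (List.ofFn t : Multiset (Fin n)) := by
    rw [← mm_toMultiset, ← mm_toMultiset, h]
  have h2 : (List.ofFn s).Perm (List.ofFn t) := Multiset.coe_eq_coe.1 h1
  have h3 := h2.eq_of_sortedLE (List.sortedLE_ofFn_iff.2 hs) (List.sortedLE_ofFn_iff.2 ht)
  exact List.ofFn_injective h3

theorem mm_surj {n k : ℕ} {c : Fin n →₀ ℕ} (hc : c ∈ Mon n k) :
    ∃ s : Fin k → Fin n, Monotone s ∧ mm s = c := by
  have hlen : ((Finsupp.toMultiset c).sort (· ≤ ·)).length = k := by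
    rw [Multiset.length_sort, Finsupp.card_toMultiset, ← mem_Mon'.1 hc]
    rfl
  generalize hl : (Finsupp.toMultiset c).sort (· ≤ ·) = l at hlen
  subst hlen
  have hs : l.Pairwise (· ≤ ·) := by
    rw [← hl]
    exact Multiset.pairwise_sort _ _
  have hl2 : (l : Multiset (Fin n)) = Finsupp.toMultiset c := by
    rw [← hl]
    exact Multiset.sort_eq _ _
  refine ⟨l.get, ?_, ?_⟩
  · rw [← List.sortedLE_ofFn_iff, List.ofFn_get]
    exact hs.sortedLE
  · have h3 : Finsupp.toMultiset (mm l.get) = Finsupp.toMultiset c := by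
      rw [mm_toMultiset, List.ofFn_get, hl2]
    have h4 := congrArg Multiset.toFinsupp h3
    rwa [Finsupp.toMultiset_toFinsupp, Finsupp.toMultiset_toFinsupp] at h4

/-- sums over the monomials as sums over monotone functions -/
theorem sum_mon {n k : ℕ} (F : (Fin n →₀ ℕ) → ℚ) :
    ∑ s ∈ (univ : Finset (Fin k → Fin n)).filter (fun s => Monotone s), F (mm s) =
      ∑ c ∈ Mon n k, F c := by
  apply Finset.sum_nbij mm
  · intro s _
    exact mm_mem s
  · intro s hs t ht h
    exact mm_inj (mem_filter.1 (mem_coe.1 hs)).2 (mem_filter.1 (mem_coe.1 ht)).2 h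
  · intro c hc
    obtain ⟨s, hs, hsc⟩ := mm_surj (mem_coe.1 hc)
    exact ⟨s, by simpa using hs, hsc⟩
  · intro s _
    rfl

theorem mv_mv {n : ℕ} {c : Fin n →₀ ℕ} {i j : Fin n} (hi : 0 < c i) : mv i j (mv j i c) = c := by
  unfold mv
  rw [add_tsub_cancel_right]
  apply tsub_add_cancel_of_le
  rw [Finsupp.single_le_iff]
  exact hi

theorem mm_update {n k : ℕ} (s : Fin k → Fin n) (j : Fin k) (b : Fin n) :
    mm (Function.update s j b) = mv b (s j) (mm s) := by
  unfold mm mv
  have h1 : ∑ t, Finsupp.single (s t) 1 = Finsupp.single (s j) 1 +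
      ∑ t ∈ univ.erase j, Finsupp.single (s t) 1 := (add_sum_erase _ _ (mem_univ j)).symm
  have h2 : ∑ t, Finsupp.single (Function.update s j b t) 1 =
      Finsupp.single (Function.update s j b j) 1 +
      ∑ t ∈ univ.erase j, Finsupp.single (Function.update s j b t) 1 :=
    (add_sum_erase _ _ (mem_univ j)).symm
  have h3 : ∑ t ∈ univ.erase j, Finsupp.single (Function.update s j b t) 1 =
      ∑ t ∈ univ.erase j, Finsupp.single (s t) 1 := by
    apply sum_congr rfl
    intro t ht
    rw [Function.update_of_ne (ne_of_mem_erase ht)]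
  rw [h1, h2, h3, Function.update_self, add_tsub_cancel_left, add_comm]

theorem mm_pos {n k : ℕ} (s : Fin k → Fin n) (j : Fin k) : 0 < mm s (s j) := by
  unfold mm
  rw [Finsupp.finsetSum_apply]
  apply sum_pos' (fun _ _ => Nat.zero_le _) ⟨j, mem_univ j, by simp⟩

theorem mono_update {n k : ℕ} (F : (Fin n →₀ ℕ) → ℚ)
    (hF : ∀ c ∈ Mon n k, ∀ i j : Fin n, i < j → 0 < c i → F c ≤ F (mv j i c))
    (s : Fin k → Fin n) (j : Fin k) (b : Fin n) (hb : s j ≤ b) :
    F (mm s) ≤ F (mm (Function.update s j b)) := by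
  rcases hb.eq_or_lt with rfl | hlt
  · rw [Function.update_eq_self]
  · rw [mm_update]
    exact hF _ (mm_mem s) _ _ hlt (mm_pos s j)

theorem mono_mm {n k : ℕ} (F : (Fin n →₀ ℕ) → ℚ)
    (hF : ∀ c ∈ Mon n k, ∀ i j : Fin n, i < j → 0 < c i → F c ≤ F (mv j i c)) :
    Monotone fun s : Fin k → Fin n => F (mm s) := by
  intro s t hst
  have key : ∀ T : Finset (Fin k), F (mm s) ≤ F (mm (fun j => if j ∈ T then t j else s j)) := by
    intro T
    induction T using Finset.induction_on with
    | empty => simp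
    | insert j T hj ih =>
      refine ih.trans ?_
      have h1 : (fun i => if i ∈ insert j T then t i else s i) =
          Function.update (fun i => if i ∈ T then t i else s i) j (t j) := by
        ext i
        by_cases hij : i = j
        · subst hij
          simp
        · rw [Function.update_of_ne hij]
          simp [hij]
      rw [h1]
      apply mono_update F hF
      simp [hj, hst j]
  have := key univ
  simpa using this

end FkgX

open FkgX in
theorem fkg_thm : S_FKG := by
  classical
  intro n k A g hA hS hg0 hg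
  let μ : (Fin k → Fin n) → ℚ := fun s => if Monotone s then 1 else 0
  let f : (Fin n →₀ ℕ) → ℚ := fun c => if c ∈ A then 0 else 1
  have hf : ∀ c ∈ Mon n k, ∀ i j : Fin n, i < j → 0 < c i → f c ≤ f (mv j i c) := by
    intro c _ i j hij hi
    by_cases h : mv j i c ∈ A
    · have h2 : c ∈ A := by
        have h3 := hS _ h i j hij (by simp [mv])
        rwa [mv_mv hi] at h3
      simp [f, h, h2]
    · have h4 : f (mv j i c) = 1 := by simp [f, h]
      rw [h4]
      simp only [f]
      split_ifs <;> norm_num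
  have hsum : ∀ F : (Fin n →₀ ℕ) → ℚ, ∑ s : Fin k → Fin n, μ s * F (mm s) = ∑ c ∈ Mon n k, F c := by
    intro F
    rw [← sum_mon, sum_filter]
    apply sum_congr rfl
    intro s _
    simp only [μ]
    split_ifs <;> simp
  have h := fkg (α := Fin k → Fin n) (β := ℚ) (μ := μ) (f := fun s => f (mm s))
    (g := fun s => g (mm s))
    (fun s => by simp only [μ]; show (0 : ℚ) ≤ _; split_ifs <;> norm_num)
    (fun s => by simp only [f]; show (0 : ℚ) ≤ _; split_ifs <;> norm_num)
    (fun s => hg0 _ (mm_mem s)) (mono_mm f hf) (mono_mm g hg)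
    (fun a b => by
      simp only [μ]
      by_cases ha : Monotone a
      · by_cases hb : Monotone b
        · rw [if_pos ha, if_pos hb, if_pos (ha.inf hb), if_pos (ha.sup hb)]
        · rw [if_neg hb]
          split_ifs <;> norm_num
      · rw [if_neg ha]
        split_ifs <;> norm_num)
  have e1 := hsum f
  have e2 := hsum g
  have e3 := hsum (fun c => f c * g c)
  have e4 : ∑ s : Fin k → Fin n, μ s = (Mon n k).card := by
    have := hsum (fun _ => 1)
    simpa using this
  rw [e1, e2, e4, e3] at h
  have e5 : ∑ c ∈ Mon n k, f c = (Mon n k).card - A.card := by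
    have h1 : ∑ c ∈ Mon n k, (1 - f c) = A.card := by
      rw [← sum_subset hA]
      · have h2 : ∑ c ∈ A, (1 - f c) = ∑ c ∈ A, (1 : ℚ) :=
          sum_congr rfl fun c hc => by simp [f, hc]
        rw [h2]
        simp
      · intro c _ hc
        simp [f, hc]
    rw [sum_sub_distrib] at h1
    simp only [sum_const, nsmul_eq_mul, mul_one] at h1
    linarith
  have e6 : ∑ c ∈ Mon n k, f c * g c = ∑ c ∈ Mon n k, g c - ∑ c ∈ A, g c := by
    have h1 : ∑ c ∈ Mon n k, (1 - f c) * g c = ∑ c ∈ A, g c := by
      rw [← sum_subset hA]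
      · apply sum_congr rfl
        intro c hc
        simp [f, hc]
      · intro c _ hc
        simp [f, hc]
    have h2 : ∑ c ∈ Mon n k, (1 - f c) * g c = ∑ c ∈ Mon n k, g c - ∑ c ∈ Mon n k, f c * g c := by
      rw [← sum_sub_distrib]
      apply sum_congr rfl
      intro c _
      ring
    linarith
  rw [e5, e6] at h
  nlinarith

end Pool.Agent.TH206.Fro
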