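import Pool.Agent.H15.G.R_seed8.TH206.Fro.Stmts

/-!
# Compression to strongly stable sets
-/

set_option autoImplicit false

namespace Pool.Agent.TH206.Fro

open Finset
open scoped Pointwise

namespace Cmpr

variable {n : ℕ}

/-- all factors `x_j` are replaced by `x_i` -/
noncomputable def kap (i j : Fin n) (c : Fin n →₀ ℕ) : Fin n →₀ ℕ :=
  Finsupp.erase j c + Finsupp.single i (c j)

theorem kap_j {i j : Fin n} (h : i ≠ j) (c : Fin n →₀ ℕ) : kap i j c j = 0 := by
  unfold kap
  rw [Finsupp.add_apply, Finsupp.erase_same, Finsupp.single_eq_of_ne (Ne.symm h), add_zero]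

theorem kap_i {i j : Fin n} (h : i ≠ j) (c : Fin n →₀ ℕ) : kap i j c i = c i + c j := by
  unfold kap
  rw [Finsupp.add_apply, Finsupp.erase_ne h, Finsupp.single_eq_same]

theorem kap_o {i j u : Fin n} (hi : u ≠ i) (hj : u ≠ j) (c : Fin n →₀ ℕ) :
    kap i j c u = c u := by
  unfold kap
  rw [Finsupp.add_apply, Finsupp.erase_ne hj, Finsupp.single_eq_of_ne hi, add_zero]

theorem kap_add (i j : Fin n) (c d : Fin n →₀ ℕ) : kap i j (c + d) = kap i j c + kap i j d := by
  unfold kap
  rw [Finsupp.erase_add, Finsupp.add_apply, Finsupp.single_add]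
  abel

theorem kap_deg (i j : Fin n) (c : Fin n →₀ ℕ) :
    Finsupp.degree (kap i j c) = Finsupp.degree c := by
  conv_rhs => rw [← Finsupp.erase_add_single j c]
  unfold kap
  rw [map_add, map_add, Finsupp.degree_single, Finsupp.degree_single]

theorem kap_mem {k : ℕ} (i j : Fin n) {c : Fin n →₀ ℕ} :
    kap i j c ∈ Mon n k ↔ c ∈ Mon n k := by
  rw [mem_Mon', mem_Mon', kap_deg]

theorem kap_inj {i j : Fin n} (h : i ≠ j) {c d : Fin n →₀ ℕ} (h1 : kap i j c = kap i j d)
    (h2 : c j = d j) : c = d := by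
  ext u
  by_cases hj : u = j
  · rw [hj]; exact h2
  · by_cases hi : u = i
    · have h3 := DFunLike.congr_fun h1 i
      rw [kap_i h, kap_i h] at h3
      rw [hi]; omega
    · have h3 := DFunLike.congr_fun h1 u
      rwa [kap_o hi hj, kap_o hi hj] at h3

/-- the element with `t` factors `x_j` -/
noncomputable def phi (i j : Fin n) (z : Fin n →₀ ℕ) (t : ℕ) : Fin n →₀ ℕ :=
  z - Finsupp.single i t + Finsupp.single j t

theorem phi_j {i j : Fin n} (_h : i ≠ j) (z : Fin n →₀ ℕ) (hz : z j = 0) (t : ℕ) :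
    phi i j z t j = t := by
  unfold phi
  rw [Finsupp.add_apply, Finsupp.tsub_apply, Finsupp.single_eq_same, hz]
  omega

theorem kap_phi {i j : Fin n} (h : i ≠ j) (z : Fin n →₀ ℕ) (hz : z j = 0) (t : ℕ)
    (ht : t ≤ z i) : kap i j (phi i j z t) = z := by
  ext u
  by_cases hj : u = j
  · rw [hj, kap_j h, hz]
  · by_cases hi : u = i
    · rw [hi, kap_i h, phi_j h z hz]
      unfold phi
      rw [Finsupp.add_apply, Finsupp.tsub_apply, Finsupp.single_eq_same,
        Finsupp.single_eq_of_ne h]
      omega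
    · rw [kap_o hi hj]
      unfold phi
      rw [Finsupp.add_apply, Finsupp.tsub_apply, Finsupp.single_eq_of_ne hi,
        Finsupp.single_eq_of_ne hj]
      omega

open Classical in
/-- number of elements of a fibre -/
noncomputable def cnt (i j : Fin n) (A : Finset (Fin n →₀ ℕ)) (z : Fin n →₀ ℕ) : ℕ :=
  (A.filter (fun c => kap i j c = z)).card

open Classical in
/-- the compression -/
noncomputable def comp (i j : Fin n) (k : ℕ) (A : Finset (Fin n →₀ ℕ)) :
    Finset (Fin n →₀ ℕ) :=
  (Mon n k).filter (fun c => c j < cnt i j A (kap i j c))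

theorem mem_comp {i j : Fin n} {k : ℕ} {A : Finset (Fin n →₀ ℕ)} {c : Fin n →₀ ℕ} :
    c ∈ comp i j k A ↔ c ∈ Mon n k ∧ c j < cnt i j A (kap i j c) := by
  unfold comp
  rw [mem_filter]

theorem comp_sub (i j : Fin n) (k : ℕ) (A : Finset (Fin n →₀ ℕ)) : comp i j k A ⊆ Mon n k :=
  Finset.filter_subset _ _

theorem cnt_comp {i j : Fin n} (h : i ≠ j) {k : ℕ} {A : Finset (Fin n →₀ ℕ)}
    (hA : A ⊆ Mon n k) (z : Fin n →₀ ℕ) : cnt i j (comp i j k A) z = cnt i j A z := by
  classical
  rcases Nat.eq_zero_or_pos (cnt i j A z) with h0 | h0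
  · rw [h0]
    unfold cnt
    rw [Finset.card_eq_zero, Finset.filter_eq_empty_iff]
    intro c hc hcz
    rw [mem_comp, hcz, h0] at hc
    exact absurd hc.2 (Nat.not_lt_zero _)
  · -- the fibre of `A` is not empty
    have hne : (A.filter (fun c => kap i j c = z)).Nonempty := Finset.card_pos.1 h0
    obtain ⟨c0, hc0⟩ := hne
    rw [mem_filter] at hc0
    have hzM : z ∈ Mon n k := by
      rw [← hc0.2]
      exact (kap_mem i j).2 (hA hc0.1)
    have hzj : z j = 0 := by rw [← hc0.2]; exact kap_j h c0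
    have hle : cnt i j A z ≤ z i + 1 := by
      unfold cnt
      calc (A.filter (fun c => kap i j c = z)).card
          ≤ (Finset.range (z i + 1)).card := by
            refine Finset.card_le_card_of_injOn (fun c => c j) ?_ ?_
            · intro c hc
              rw [Finset.mem_coe, mem_filter] at hc
              rw [Finset.mem_coe, Finset.mem_range]
              have h3 := kap_i h c
              rw [hc.2] at h3
              show c j < z i + 1
              omega
            · intro c hc d hd hcd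
              rw [Finset.mem_coe, mem_filter] at hc hd
              exact kap_inj h (hc.2.trans hd.2.symm) hcd
        _ = z i + 1 := Finset.card_range _
    have h4 : (comp i j k A).filter (fun c => kap i j c = z) =
        (Finset.range (cnt i j A z)).image (phi i j z) := by
      ext c
      rw [mem_filter, mem_comp, mem_image]
      constructor
      · rintro ⟨⟨_, h5⟩, h6⟩
        rw [h6] at h5
        refine ⟨c j, Finset.mem_range.2 h5, ?_⟩
        have hci : c j ≤ z i := by
          have h3 := kap_i h c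
          rw [h6] at h3
          omega
        apply kap_inj h
        · rw [kap_phi h z hzj _ hci, h6]
        · exact phi_j h z hzj _
      · rintro ⟨t, ht, rfl⟩
        rw [Finset.mem_range] at ht
        have hk := kap_phi h z hzj t (by omega)
        refine ⟨⟨?_, ?_⟩, hk⟩
        · rw [← kap_mem i j, hk]; exact hzM
        · rw [hk, phi_j h z hzj]; exact ht
    show ((comp i j k A).filter (fun c => kap i j c = z)).card = _
    rw [h4, Finset.card_image_of_injOn, Finset.card_range]
    intro s _ t _ hst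
    have h5 := DFunLike.congr_fun hst j
    rwa [phi_j h z hzj, phi_j h z hzj] at h5

theorem sum_kap {i j : Fin n} (h : i ≠ j) {k : ℕ} {A : Finset (Fin n →₀ ℕ)}
    (hA : A ⊆ Mon n k) (F : (Fin n →₀ ℕ) → ℤ) :
    ∑ c ∈ comp i j k A, F (kap i j c) = ∑ c ∈ A, F (kap i j c) := by
  classical
  have key : ∀ B : Finset (Fin n →₀ ℕ), B ⊆ Mon n k → ∑ c ∈ B, F (kap i j c) =
      ∑ z ∈ Mon n k, (cnt i j B z : ℤ) * F z := by
    intro B hB
    rw [← Finset.sum_fiberwise_of_maps_to (t := Mon n k) (g := kap i j)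
      (fun x hx => (kap_mem i j).2 (hB hx))]
    refine Finset.sum_congr rfl ?_
    intro z _
    rw [Finset.sum_congr rfl (fun x hx => by rw [(Finset.mem_filter.1 hx).2]),
      Finset.sum_const, nsmul_eq_mul]
    rfl
  rw [key _ (comp_sub i j k A), key _ hA]
  refine Finset.sum_congr rfl ?_
  intro z _
  rw [cnt_comp h hA]

theorem card_comp {i j : Fin n} (h : i ≠ j) {k : ℕ} {A : Finset (Fin n →₀ ℕ)}
    (hA : A ⊆ Mon n k) : (comp i j k A).card = A.card := by
  have := sum_kap h hA (fun _ => 1)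
  simp only [Finset.sum_const, nsmul_eq_mul, mul_one] at this
  exact_mod_cast this

theorem cnt_add {i j : Fin n} (h : i ≠ j) {A B : Finset (Fin n →₀ ℕ)} (z w : Fin n →₀ ℕ)
    (hz : 0 < cnt i j A z) (hw : 0 < cnt i j B w) :
    cnt i j A z + cnt i j B w ≤ cnt i j (A + B) (z + w) + 1 := by
  classical
  obtain ⟨P, hP⟩ : ∃ P, P = A.filter (fun c => kap i j c = z) := ⟨_, rfl⟩
  obtain ⟨Q, hQ⟩ : ∃ Q, Q = B.filter (fun c => kap i j c = w) := ⟨_, rfl⟩
  have hPc : cnt i j A z = P.card := by rw [hP]; rfl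
  have hQc : cnt i j B w = Q.card := by rw [hQ]; rfl
  have hPi : (P.image (fun c => c j)).card = P.card := by
    apply Finset.card_image_of_injOn
    intro c hc d hd hcd
    rw [Finset.mem_coe, hP, mem_filter] at hc hd
    exact kap_inj h (hc.2.trans hd.2.symm) hcd
  have hQi : (Q.image (fun c => c j)).card = Q.card := by
    apply Finset.card_image_of_injOn
    intro c hc d hd hcd
    rw [Finset.mem_coe, hQ, mem_filter] at hc hd
    exact kap_inj h (hc.2.trans hd.2.symm) hcd
  have hPne : P.Nonempty := Finset.card_pos.1 (by omega)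
  have hQne : Q.Nonempty := Finset.card_pos.1 (by omega)
  have hCD := cauchy_davenport_add_of_linearOrder_isCancelAdd
    (hPne.image (fun c => c j)) (hQne.image (fun c => c j))
  rw [hPi, hQi] at hCD
  have hsub : P.image (fun c => c j) + Q.image (fun c => c j) ⊆
      ((A + B).filter (fun c => kap i j c = z + w)).image (fun c => c j) := by
    intro x hx
    rw [Finset.mem_add] at hx
    obtain ⟨a, ha, b, hb, rfl⟩ := hx
    rw [mem_image] at ha hb
    obtain ⟨c, hc, rfl⟩ := ha
    obtain ⟨d, hd, rfl⟩ := hb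
    rw [hP, mem_filter] at hc
    rw [hQ, mem_filter] at hd
    rw [mem_image]
    refine ⟨c + d, ?_, rfl⟩
    rw [mem_filter]
    exact ⟨Finset.add_mem_add hc.1 hd.1, by rw [kap_add, hc.2, hd.2]⟩
  have h1 := (Finset.card_le_card hsub).trans Finset.card_image_le
  have h2 : cnt i j (A + B) (z + w) =
      ((A + B).filter (fun c => kap i j c = z + w)).card := rfl
  omega

theorem add_sub {i j : Fin n} (h : i ≠ j) {k d : ℕ} {A B : Finset (Fin n →₀ ℕ)} :
    comp i j k A + comp i j d B ⊆ comp i j (k + d) (A + B) := by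
  intro x hx
  rw [Finset.mem_add] at hx
  obtain ⟨a, ha, b, hb, rfl⟩ := hx
  rw [mem_comp] at ha hb ⊢
  constructor
  · rw [mem_Mon'] at *
    rw [map_add, ha.1, hb.1]
  · have h1 := cnt_add h (A := A) (B := B) (kap i j a) (kap i j b) (by omega) (by omega)
    rw [kap_add, Finsupp.add_apply]
    omega

theorem add_card {i j : Fin n} (h : i ≠ j) {k d : ℕ} {A B : Finset (Fin n →₀ ℕ)}
    (hA : A ⊆ Mon n k) (hB : B ⊆ Mon n d) :
    (comp i j k A + comp i j d B).card ≤ (A + B).card := by
  have hAB : A + B ⊆ Mon n (k + d) := by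
    intro x hx
    rw [Finset.mem_add] at hx
    obtain ⟨a, ha, b, hb, rfl⟩ := hx
    have h1 := hA ha
    have h2 := hB hb
    rw [mem_Mon'] at *
    rw [map_add, h1, h2]
  rw [← card_comp h hAB]
  exact Finset.card_le_card (add_sub h)

/-- the weight of an exponent vector -/
def wt (c : Fin n →₀ ℕ) : ℕ := ∑ u : Fin n, u.val * c u

/-- the potential -/
def pot (A : Finset (Fin n →₀ ℕ)) : ℕ := ∑ c ∈ A, wt c

theorem wt_kap {i j : Fin n} (h : i ≠ j) (c : Fin n →₀ ℕ) :
    (wt c : ℤ) = wt (kap i j c) + ((j.val : ℤ) - i.val) * c j := by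
  unfold wt
  have hj : j ∈ (univ : Finset (Fin n)).erase i := Finset.mem_erase.2 ⟨h.symm, mem_univ j⟩
  rw [← Finset.add_sum_erase univ _ (mem_univ i), ← Finset.add_sum_erase _ _ hj,
    ← Finset.add_sum_erase univ (fun u => u.val * kap i j c u) (mem_univ i),
    ← Finset.add_sum_erase _ (fun u => u.val * kap i j c u) hj]
  have h1 : ∑ u ∈ ((univ : Finset (Fin n)).erase i).erase j, u.val * kap i j c u =
      ∑ u ∈ ((univ : Finset (Fin n)).erase i).erase j, u.val * c u := by
    refine Finset.sum_congr rfl ?_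
    intro u hu
    rw [kap_o (Finset.ne_of_mem_erase (Finset.mem_of_mem_erase hu)) (Finset.ne_of_mem_erase hu)]
  rw [h1, kap_i h, kap_j h]
  push_cast
  ring

theorem pot_comp {i j : Fin n} (h : i < j) {k : ℕ} {A : Finset (Fin n →₀ ℕ)}
    (hA : A ⊆ Mon n k) : pot (comp i j k A) + (comp i j k A \ A).card ≤ pot A := by
  classical
  have hne : i ≠ j := h.ne
  have hpot : ∀ B : Finset (Fin n →₀ ℕ), (pot B : ℤ) =
      ∑ c ∈ B, ((wt (kap i j c) : ℤ) + ((j.val : ℤ) - i.val) * cnt i j A (kap i j c)) +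
        ((j.val : ℤ) - i.val) * ∑ c ∈ B, ((c j : ℤ) - cnt i j A (kap i j c)) := by
    intro B
    unfold pot
    push_cast
    rw [Finset.mul_sum, ← Finset.sum_add_distrib]
    refine Finset.sum_congr rfl ?_
    intro c _
    rw [wt_kap hne c]
    ring
  have h1 := sum_kap hne hA (fun z => (wt z : ℤ) + ((j.val : ℤ) - i.val) * cnt i j A z)
  have h2 : ∑ c ∈ comp i j k A, ((c j : ℤ) - cnt i j A (kap i j c)) +
      (comp i j k A \ A).card ≤ ∑ c ∈ A, ((c j : ℤ) - cnt i j A (kap i j c)) := by
    rw [← Finset.sum_inter_add_sum_sdiff (comp i j k A) A,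
      ← Finset.sum_inter_add_sum_sdiff A (comp i j k A), Finset.inter_comm]
    have h3 : ∑ c ∈ comp i j k A \ A, ((c j : ℤ) - cnt i j A (kap i j c)) +
        (comp i j k A \ A).card ≤ 0 := by
      have h4 : ∑ c ∈ comp i j k A \ A, ((c j : ℤ) - cnt i j A (kap i j c)) ≤
          ∑ c ∈ comp i j k A \ A, (-1 : ℤ) := by
        apply Finset.sum_le_sum
        intro c hc
        rw [mem_sdiff, mem_comp] at hc
        have := hc.1.2
        omega
      rw [Finset.sum_const, nsmul_eq_mul] at h4
      linarith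
    have h5 : 0 ≤ ∑ c ∈ A \ comp i j k A, ((c j : ℤ) - cnt i j A (kap i j c)) := by
      apply Finset.sum_nonneg
      intro c hc
      rw [mem_sdiff, mem_comp] at hc
      have : ¬ c j < cnt i j A (kap i j c) := fun h' => hc.2 ⟨hA hc.1, h'⟩
      omega
    linarith
  have h6 : (1 : ℤ) ≤ (j.val : ℤ) - i.val := by
    have : i.val < j.val := h
    omega
  have h7 := hpot (comp i j k A)
  have h8 := hpot A
  have h9 : (0 : ℤ) ≤ ((comp i j k A \ A).card : ℤ) := Nat.cast_nonneg _
  have h10 : ((pot (comp i j k A) : ℤ) + (comp i j k A \ A).card) ≤ pot A := by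
    rw [h7, h8, h1]
    nlinarith
  exact_mod_cast h10

end Cmpr

open Cmpr in
theorem comp_thm : S_COMP := by
  classical
  intro n k d A B hA hB hAne hBne
  obtain ⟨T, hT⟩ : ∃ T : Finset (Finset (Fin n →₀ ℕ) × Finset (Fin n →₀ ℕ)),
      T = ((Mon n k).powerset ×ˢ (Mon n d).powerset).filter
        (fun p => p.1.card = A.card ∧ p.2.card = B.card ∧ (p.1 + p.2).card ≤ (A + B).card) :=
    ⟨_, rfl⟩
  have hTne : T.Nonempty := by
    refine ⟨(A, B), ?_⟩
    rw [hT, mem_filter, mem_product, mem_powerset, mem_powerset]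
    exact ⟨⟨hA, hB⟩, rfl, rfl, le_refl _⟩
  obtain ⟨p, hp, hmin⟩ := Finset.exists_min_image T (fun p => pot p.1 + pot p.2) hTne
  have hmem : ∀ q : Finset (Fin n →₀ ℕ) × Finset (Fin n →₀ ℕ), q ∈ T ↔
      (q.1 ⊆ Mon n k ∧ q.2 ⊆ Mon n d) ∧ q.1.card = A.card ∧ q.2.card = B.card ∧
        (q.1 + q.2).card ≤ (A + B).card := by
    intro q
    rw [hT, mem_filter, mem_product, mem_powerset, mem_powerset]
  obtain ⟨⟨hp1, hp2⟩, hp3, hp4, hp5⟩ := (hmem p).1 hp
  have key : ∀ i j : Fin n, i < j → comp i j k p.1 = p.1 ∧ comp i j d p.2 = p.2 := by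
    intro i j hij
    have h1 : (comp i j k p.1, comp i j d p.2) ∈ T := by
      rw [hmem]
      refine ⟨⟨comp_sub _ _ _ _, comp_sub _ _ _ _⟩, ?_, ?_, ?_⟩
      · exact (card_comp hij.ne hp1).trans hp3
      · exact (card_comp hij.ne hp2).trans hp4
      · exact (add_card hij.ne hp1 hp2).trans hp5
    have h2 := hmin _ h1
    have h3 := pot_comp hij hp1
    have h4 := pot_comp hij hp2
    have h2' : pot p.1 + pot p.2 ≤ pot (comp i j k p.1) + pot (comp i j d p.2) := h2
    have h5 : (comp i j k p.1 \ p.1).card = 0 := by omega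
    have h6 : (comp i j d p.2 \ p.2).card = 0 := by omega
    rw [Finset.card_eq_zero, Finset.sdiff_eq_empty_iff_subset] at h5 h6
    exact ⟨Finset.eq_of_subset_of_card_le h5 (card_comp hij.ne hp1).ge,
      Finset.eq_of_subset_of_card_le h6 (card_comp hij.ne hp2).ge⟩
  have stab : ∀ (m : ℕ) (C : Finset (Fin n →₀ ℕ)), (∀ i j : Fin n, i < j → comp i j m C = C) →
      Stable C := by
    intro m C hC a ha i j hij haj
    rw [← hC i j hij, mem_comp] at ha ⊢
    have hkap : kap i j (mv i j a) = kap i j a := by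
      ext u
      by_cases huj : u = j
      · rw [huj, kap_j hij.ne, kap_j hij.ne]
      · by_cases hui : u = i
        · rw [hui, kap_i hij.ne, kap_i hij.ne]
          unfold mv
          rw [Finsupp.add_apply, Finsupp.tsub_apply, Finsupp.add_apply, Finsupp.tsub_apply,
            Finsupp.single_eq_same, Finsupp.single_eq_same, Finsupp.single_eq_of_ne hij.ne,
            Finsupp.single_eq_of_ne hij.ne']
          omega
        · rw [kap_o hui huj, kap_o hui huj]
          unfold mv
          rw [Finsupp.add_apply, Finsupp.tsub_apply, Finsupp.single_eq_of_ne hui,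
            Finsupp.single_eq_of_ne huj]
          omega
    have hj : mv i j a j = a j - 1 := by
      unfold mv
      rw [Finsupp.add_apply, Finsupp.tsub_apply, Finsupp.single_eq_same,
        Finsupp.single_eq_of_ne hij.ne']
      omega
    rw [hkap, hj]
    refine ⟨?_, by omega⟩
    rw [← kap_mem i j, hkap, kap_mem]
    exact ha.1
  exact ⟨p.1, p.2, hp1, hp2, stab k p.1 (fun i j hij => (key i j hij).1),
    stab d p.2 (fun i j hij => (key i j hij).2), hp3, hp4, hp5⟩

end Pool.Agent.TH206.Fro
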