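import Pool.Agent.H15.G.R_seed8.TH206.Fro.Stmts2

/-!
The ideal in degree `D` is the row space of the matrix of the multiples.
-/

set_option autoImplicit false

namespace Pool.Agent.TH206.Fro

open Module MvPolynomial

theorem dim_thm : S_DIM := by
  intro n D K _
  rw [← finrank_map_cf (D := D) (homogeneousSubmodule (Fin n) K D) le_rfl]
  have h : (homogeneousSubmodule (Fin n) K D).map (cf D) = ⊤ := by
    rw [eq_top_iff]
    intro x _
    classical
    refine ⟨∑ u : Dg n D, x u • monomial u.1 1, ?_, ?_⟩
    · exact Submodule.sum_mem _ fun u _ =>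
        Submodule.smul_mem _ _ (isHomogeneous_monomial _ u.2)
    · funext v
      rw [cf_apply, coeff_sum, Finset.sum_eq_single v]
      · rw [coeff_smul, coeff_monomial, if_pos rfl, smul_eq_mul, mul_one]
      · intro m _ hm
        rw [coeff_smul, coeff_monomial, if_neg, smul_zero]
        intro h; exact hm (Subtype.ext h)
      · intro h; exact absurd (Finset.mem_univ _) h
  rw [h, finrank_top, finrank_fintype_fun_eq_card, card_Dg]

/-- the rows of the matrix -/
lemma cf_row {n D r : ℕ} (d : Fin r → ℕ) {K : Type} [Field K]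
    (f : Fin r → MvPolynomial (Fin n) K) (p : Ro n D d) :
    cf D (monomial p.2.1 1 * f p.1) = Mx d D (fun s : Io n d => (f s.1).coeff s.2.1) p := by
  classical
  funext u
  rw [cf_apply, coeff_monomial_mul', one_mul]
  unfold Mx
  split_ifs <;> rfl

attribute [local instance] MvPolynomial.gradedAlgebra in
lemma hc_mul' {n : ℕ} {K : Type} [Field K] {δ : ℕ} {f : MvPolynomial (Fin n) K}
    (hf : f ∈ homogeneousSubmodule (Fin n) K δ) (c : MvPolynomial (Fin n) K) (j : ℕ) :
    homogeneousComponent j (c * f) =
      if δ ≤ j then homogeneousComponent (j - δ) c * f else 0 := by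
  have h := DirectSum.coe_decompose_mul_of_right_mem (𝒜 := homogeneousSubmodule (Fin n) K)
    (a := c) (b := f) (i := δ) j hf
  have h1 : ∀ (g : MvPolynomial (Fin n) K) (k : ℕ),
      ((DirectSum.decompose (homogeneousSubmodule (Fin n) K) g) k : MvPolynomial (Fin n) K)
        = homogeneousComponent k g := fun g k => decomposition.decompose'_apply g k
  rw [h1, h1] at h
  rw [h]

/-- the degree `D` part of the ideal generated by forms -/
lemma span_inf_eq' {n D r : ℕ} (d : Fin r → ℕ) {K : Type} [Field K]
    (f : Fin r → MvPolynomial (Fin n) K) (hf : ∀ i, (f i).IsHomogeneous (d i)) :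
    (Submodule.restrictScalars K (Ideal.span (Set.range f)) ⊓
      homogeneousSubmodule (Fin n) K D) =
      Submodule.span K (Set.range fun p : Ro n D d => monomial p.2.1 1 * f p.1) := by
  refine le_antisymm ?_ (Submodule.span_le.2 ?_)
  · rintro G ⟨h1, h2⟩
    have h1' : G ∈ Ideal.span (Set.range f) := h1
    rw [Ideal.mem_span_range_iff_exists_fun] at h1'
    obtain ⟨c, hc⟩ := h1'
    have h3 : G = homogeneousComponent D G := by
      rw [homogeneousComponent_of_mem h2, if_pos rfl]
    rw [h3, ← hc, map_sum]
    refine Submodule.sum_mem _ fun i _ => ?_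
    rw [hc_mul' (hf i) (c i) D]
    split_ifs with h
    · have h5 := (homogeneousComponent (D - d i) (c i)).support_sum_monomial_coeff
      rw [← h5, Finset.sum_mul]
      refine Submodule.sum_mem _ fun a ha => ?_
      have h6 : Finsupp.degree a = D - d i := by
        by_contra hne
        have h7 := (homogeneousComponent_isHomogeneous (D - d i) (c i)).coeff_eq_zero hne
        exact (mem_support_iff.1 ha) h7
      have h8 : monomial a (coeff a (homogeneousComponent (D - d i) (c i))) * f i =
          coeff a (homogeneousComponent (D - d i) (c i)) • (monomial a 1 * f i) := by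
        rw [← smul_mul_assoc, smul_monomial, smul_eq_mul, mul_one]
      rw [h8]
      refine Submodule.smul_mem _ _ (Submodule.subset_span ⟨⟨i, ⟨a, by omega⟩⟩, rfl⟩)
    · exact Submodule.zero_mem _
  · rintro _ ⟨p, rfl⟩
    refine ⟨?_, ?_⟩
    · exact Ideal.mul_mem_left _ _ (Ideal.subset_span ⟨p.1, rfl⟩)
    · have h1 : (monomial p.2.1 (1 : K)).IsHomogeneous (Finsupp.degree p.2.1) :=
        isHomogeneous_monomial _ rfl
      have h2 := h1.mul (hf p.1)
      rw [p.2.2] at h2
      exact h2

theorem hilb_thm : S_HILB := by
  classical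
  intro n D r d K _ f hf
  rw [← finrank_map_cf (D := D) _ inf_le_right, span_inf_eq' d f hf, Submodule.map_span,
    ← Set.range_comp, Matrix.rank_eq_finrank_span_row]
  have h : (cf D ∘ fun p : Ro n D d => monomial p.2.1 (1 : K) * f p.1) =
      (Mx d D (fun s : Io n d => (f s.1).coeff s.2.1)).row :=
    funext fun p => cf_row d f p
  rw [h]

end Pool.Agent.TH206.Fro

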