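import Pool.Agent.H15.G.R_seed8.TH206.Fro.Gap
import Pool.Agent.H15.G.R_seed8.TH206.Fro.Vand

/-!
# The product inequality for strongly stable sets
-/

set_option autoImplicit false

namespace Pool.Agent.TH206.Fro

open Finset
open scoped Pointwise

namespace MainIneq

variable {n : ℕ}

lemma choose_id (x y z : ℕ) :
    (x + y).choose x * (x + y + z).choose (x + y) =
      (x + (y + z)).choose x * (y + z).choose y := by
  have h := Nat.choose_mul (n := x + y + z) (k := x + y) (s := x) (by omega)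
  rw [show x + y + z - x = y + z by omega, show x + y - x = y by omega] at h
  rw [mul_comm, h, add_assoc]

lemma W_assoc (c c1 c2 : Fin n →₀ ℕ) :
    W c c1 * W (c + c1) c2 = W c (c1 + c2) * W c1 c2 := by
  unfold W
  rw [← Finset.prod_mul_distrib, ← Finset.prod_mul_distrib]
  refine Finset.prod_congr rfl fun i _ => ?_
  simp only [Finsupp.coe_add, Pi.add_apply]
  exact choose_id (c i) (c1 i) (c2 i)

lemma W_comm (c c1 : Fin n →₀ ℕ) : W c c1 = W c1 c := by
  unfold W
  refine Finset.prod_congr rfl fun i _ => ?_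
  rw [add_comm (c1 i) (c i)]
  exact Nat.choose_symm_add

lemma W_assoc' (c c1 c2 : Fin n →₀ ℕ) :
    W c c1 * W (c + c1) c2 = W c1 (c + c2) * W c c2 := by
  rw [W_comm c c1, add_comm c c1, W_assoc]

end MainIneq

open MainIneq

theorem main_thm (hassoc : S_ASSOC) : S_MAIN := by
  classical
  intro n k d hn hkd hnum A B hA hB hsA hsB hcard
  obtain ⟨Nk, hNk⟩ : ∃ N, N = (Mon n k).card := ⟨_, rfl⟩
  obtain ⟨Nd, hNd⟩ : ∃ N, N = (Mon n d).card := ⟨_, rfl⟩
  obtain ⟨ND, hND⟩ : ∃ N, N = (Mon n (k + d)).card := ⟨_, rfl⟩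
  obtain ⟨X, hX⟩ : ∃ X, X = Mon n k \ A := ⟨_, rfl⟩
  obtain ⟨Y, hY⟩ : ∃ Y, Y = Mon n d \ B := ⟨_, rfl⟩
  obtain ⟨U, hU⟩ : ∃ U, U = Mon n (k + d) \ (A + B) := ⟨_, rfl⟩
  obtain ⟨r, hr⟩ : ∃ r, r = X.card := ⟨_, rfl⟩
  have hXc : r + A.card = Nk := by
    rw [hr, hX, hNk]; exact Finset.card_sdiff_add_card_eq_card hA
  have hYc0 : Y.card + B.card = Nd := by
    rw [hY, hNd]; exact Finset.card_sdiff_add_card_eq_card hB
  have hYc : Y.card = r := by omega
  have hABsub : A + B ⊆ Mon n (k + d) := by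
    intro u hu
    obtain ⟨a, ha, b, hb, rfl⟩ := Finset.mem_add.1 hu
    have h1 := mem_Mon'.1 (hA ha)
    have h2 := mem_Mon'.1 (hB hb)
    rw [mem_Mon', map_add, h1, h2]
  have hUc : U.card + (A + B).card = ND := by
    rw [hU, hND]; exact Finset.card_sdiff_add_card_eq_card hABsub
  obtain ⟨T, hT⟩ : ∃ T, T = (k + d + n - 1).choose d := ⟨_, rfl⟩
  obtain ⟨E1, hE1⟩ : ∃ E1, E1 = ∑ c ∈ A, ∑ y ∈ Y, W c y := ⟨_, rfl⟩
  obtain ⟨G, hG⟩ : ∃ G, G = ∑ c ∈ A, ∑ c' ∈ X, W c c' := ⟨_, rfl⟩
  obtain ⟨S, hS⟩ : ∃ S, S = ∑ c ∈ X, ∑ c' ∈ Mon n d, if c + c' ∈ U then 0 else W c c' := ⟨_, rfl⟩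
  have hassoc' : E1 * Nd ≤ A.card * r * T := by
    have h := hassoc n k d hn A B hA hB hsA hsB
    rw [← hY, ← hT, ← hNd, ← hE1, hYc] at h
    exact h
  have hgap : n * A.card * r * (k + k + n - 1).choose k ≤ (n + k) * Nk * G := by
    have h := gap_thm n k hn A hA
    rw [← hX, ← hr, ← hNk, ← hG] at h
    exact h
  -- the total weight over `U`
  have hpair : ∑ c ∈ Mon n k, ∑ c' ∈ Mon n d, (if c + c' ∈ U then W c c' else 0) =
      U.card * (k + d).choose k := by
    rw [← Finset.sum_product']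
    have h1 : ∑ x ∈ Mon n k ×ˢ Mon n d, (if x.1 + x.2 ∈ U then W x.1 x.2 else 0) =
        ∑ x ∈ Mon n k ×ˢ Mon n d, ∑ u ∈ U, (if x.1 + x.2 = u then W x.1 x.2 else 0) := by
      refine Finset.sum_congr rfl fun x _ => ?_
      rw [Finset.sum_ite_eq]
    rw [h1, Finset.sum_comm]
    rw [← smul_eq_mul, ← Finset.sum_const]
    refine Finset.sum_congr rfl fun u hu => ?_
    rw [← Finset.sum_filter]
    have hu' : u ∈ Mon n (k + d) := by
      rw [hU] at hu; exact (Finset.mem_sdiff.1 hu).1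
    exact split_thm n k d u hu'
  have hXsub : X ⊆ Mon n k := by rw [hX]; exact Finset.sdiff_subset
  have hYsub : Y ⊆ Mon n d := by rw [hY]; exact Finset.sdiff_subset
  have hstep1 : U.card * (k + d).choose k + S ≤ r * T + E1 := by
    have hsplit : ∑ c ∈ Mon n k, ∑ c' ∈ Mon n d, (if c + c' ∈ U then W c c' else 0) =
        ∑ c ∈ X, ∑ c' ∈ Mon n d, (if c + c' ∈ U then W c c' else 0) +
        ∑ c ∈ A, ∑ c' ∈ Mon n d, (if c + c' ∈ U then W c c' else 0) := by
      rw [hX, Finset.sum_sdiff hA]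
    have hA1 : ∑ c ∈ A, ∑ c' ∈ Mon n d, (if c + c' ∈ U then W c c' else 0) ≤ E1 := by
      rw [hE1]
      refine Finset.sum_le_sum fun c hc => ?_
      rw [← Finset.sum_filter]
      refine Finset.sum_le_sum_of_subset ?_
      intro y hy
      rw [Finset.mem_filter] at hy
      rw [hY, Finset.mem_sdiff]
      refine ⟨hy.1, fun hyB => ?_⟩
      have h2 := hy.2
      rw [hU, Finset.mem_sdiff] at h2
      exact h2.2 (Finset.add_mem_add hc hyB)
    have hX1 : ∑ c ∈ X, ∑ c' ∈ Mon n d, (if c + c' ∈ U then W c c' else 0) + S = r * T := by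
      rw [hS, ← Finset.sum_add_distrib, hr, ← smul_eq_mul, ← Finset.sum_const]
      refine Finset.sum_congr rfl fun c hc => ?_
      rw [← Finset.sum_add_distrib, hT, ← vand_thm n k d hn c (hXsub hc)]
      refine Finset.sum_congr rfl fun c' _ => ?_
      split_ifs <;> simp
    rw [← hpair, hsplit]
    omega
  -- the lower bound for `S`
  obtain ⟨e, he⟩ : ∃ e, d = k + e := ⟨d - k, by omega⟩
  have hstep2 : G * (k + k + e + n - 1).choose e ≤ d.choose k * (S + E1) := by
    have hG1 : G * (k + k + e + n - 1).choose e =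
        ∑ c ∈ X, ∑ c1 ∈ A, ∑ c2 ∈ Mon n e, W c c1 * W (c + c1) c2 := by
      rw [hG, Finset.sum_comm, Finset.sum_mul]
      refine Finset.sum_congr rfl fun c hc => ?_
      rw [Finset.sum_mul]
      refine Finset.sum_congr rfl fun c1 hc1 => ?_
      rw [← Finset.mul_sum, W_comm c1 c]
      congr 1
      symm
      apply vand_thm n (k + k) e hn
      rw [mem_Mon', map_add, mem_Mon'.1 (hXsub hc), mem_Mon'.1 (hA hc1)]
    rw [hG1]
    have hterm : ∀ c ∈ X, ∀ c1 ∈ A, ∀ c2 ∈ Mon n e, W c c1 * W (c + c1) c2 ≤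
        (if c + (c1 + c2) ∈ U then 0 else W c (c1 + c2) * W c1 c2) +
        (if c + c2 ∈ Y then W c1 (c + c2) * W c c2 else 0) := by
      intro c hc c1 hc1 c2 hc2
      by_cases h : c + c2 ∈ Y
      · rw [if_pos h, W_assoc']
        exact Nat.le_add_left _ _
      · rw [if_neg h, W_assoc, if_neg, Nat.add_zero]
        intro hu
        rw [hU, Finset.mem_sdiff] at hu
        apply hu.2
        have hcc2 : c + c2 ∈ Mon n d := by
          rw [mem_Mon', map_add, mem_Mon'.1 (hXsub hc), mem_Mon'.1 hc2, he]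
        have hB2 : c + c2 ∈ B := by
          by_contra hB3
          exact h (by rw [hY, Finset.mem_sdiff]; exact ⟨hcc2, hB3⟩)
        have : c + (c1 + c2) = c1 + (c + c2) := by abel
        rw [this]
        exact Finset.add_mem_add hc1 hB2
    have hle : ∑ c ∈ X, ∑ c1 ∈ A, ∑ c2 ∈ Mon n e, W c c1 * W (c + c1) c2 ≤
        ∑ c ∈ X, ∑ c1 ∈ Mon n k, ∑ c2 ∈ Mon n e,
          (if c + (c1 + c2) ∈ U then 0 else W c (c1 + c2) * W c1 c2) +
        ∑ c1 ∈ A, ∑ c ∈ Mon n k, ∑ c2 ∈ Mon n e,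
          (if c + c2 ∈ Y then W c1 (c + c2) * W c c2 else 0) := by
      calc ∑ c ∈ X, ∑ c1 ∈ A, ∑ c2 ∈ Mon n e, W c c1 * W (c + c1) c2
          ≤ ∑ c ∈ X, ∑ c1 ∈ A, ∑ c2 ∈ Mon n e,
            ((if c + (c1 + c2) ∈ U then 0 else W c (c1 + c2) * W c1 c2) +
            (if c + c2 ∈ Y then W c1 (c + c2) * W c c2 else 0)) :=
            Finset.sum_le_sum fun c hc => Finset.sum_le_sum fun c1 hc1 =>
              Finset.sum_le_sum fun c2 hc2 => hterm c hc c1 hc1 c2 hc2
        _ = ∑ c ∈ X, ∑ c1 ∈ A, ∑ c2 ∈ Mon n e,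
              (if c + (c1 + c2) ∈ U then 0 else W c (c1 + c2) * W c1 c2) +
            ∑ c ∈ X, ∑ c1 ∈ A, ∑ c2 ∈ Mon n e,
              (if c + c2 ∈ Y then W c1 (c + c2) * W c c2 else 0) := by
            simp only [Finset.sum_add_distrib]
        _ ≤ _ := by
            apply Nat.add_le_add
            · exact Finset.sum_le_sum fun c _ => Finset.sum_le_sum_of_subset hA
            · rw [Finset.sum_comm]
              exact Finset.sum_le_sum fun c1 _ => Finset.sum_le_sum_of_subset hXsub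
    -- grouping by the sum
    have hgroup : ∀ f : (Fin n →₀ ℕ) → ℕ,
        ∑ c1 ∈ Mon n k, ∑ c2 ∈ Mon n e, f (c1 + c2) * W c1 c2 =
          d.choose k * ∑ y ∈ Mon n d, f y := by
      intro f
      rw [← Finset.sum_product']
      have h1 : ∑ x ∈ Mon n k ×ˢ Mon n e, f (x.1 + x.2) * W x.1 x.2 =
          ∑ x ∈ Mon n k ×ˢ Mon n e, ∑ u ∈ Mon n d,
            (if x.1 + x.2 = u then f u * W x.1 x.2 else 0) := by
        refine Finset.sum_congr rfl fun x hx => ?_
        rw [Finset.sum_ite_eq, if_pos]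
        rw [Finset.mem_product] at hx
        rw [mem_Mon', map_add, mem_Mon'.1 hx.1, mem_Mon'.1 hx.2, he]
      rw [h1, Finset.sum_comm, Finset.mul_sum]
      refine Finset.sum_congr rfl fun u hu => ?_
      rw [← Finset.sum_filter, ← Finset.mul_sum, mul_comm]
      congr 1
      rw [he] at hu ⊢
      exact split_thm n k e u hu
    have hS1 : ∑ c ∈ X, ∑ c1 ∈ Mon n k, ∑ c2 ∈ Mon n e,
          (if c + (c1 + c2) ∈ U then 0 else W c (c1 + c2) * W c1 c2) = d.choose k * S := by
      rw [hS, Finset.mul_sum]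
      refine Finset.sum_congr rfl fun c _ => ?_
      rw [← hgroup (fun y => if c + y ∈ U then 0 else W c y)]
      refine Finset.sum_congr rfl fun c1 _ => Finset.sum_congr rfl fun c2 _ => ?_
      split_ifs <;> simp
    have hE2 : ∑ c1 ∈ A, ∑ c ∈ Mon n k, ∑ c2 ∈ Mon n e,
          (if c + c2 ∈ Y then W c1 (c + c2) * W c c2 else 0) = d.choose k * E1 := by
      rw [hE1, Finset.mul_sum]
      refine Finset.sum_congr rfl fun c1 _ => ?_
      have : ∑ y ∈ Y, W c1 y = ∑ y ∈ Mon n d, if y ∈ Y then W c1 y else 0 := by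
        rw [← Finset.sum_filter]
        congr 1
        ext y
        rw [Finset.mem_filter]
        exact ⟨fun h => ⟨hYsub h, h⟩, fun h => h.2⟩
      rw [this, ← hgroup (fun y => if y ∈ Y then W c1 y else 0)]
      refine Finset.sum_congr rfl fun c _ => Finset.sum_congr rfl fun c2 _ => ?_
      split_ifs <;> simp
    rw [hS1, hE2] at hle
    rw [Nat.mul_add]
    exact hle
  -- numerical identities
  have hchoose : (k + k + n - 1).choose k * (k + k + e + n - 1).choose e = T * d.choose k := by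
    obtain ⟨m, rfl⟩ : ∃ m, n = m + 1 := ⟨n - 1, by omega⟩
    rw [hT, he]
    rw [show k + k + (m + 1) - 1 = k + (k + m) by omega,
      show k + k + e + (m + 1) - 1 = k + (k + m) + e by omega,
      show k + (k + e) + (m + 1) - 1 = k + (k + m) + e by omega]
    have h1 := choose_id k (k + m) e
    have h2 : (k + (k + m) + e).choose e = (k + (k + m) + e).choose (k + (k + m)) := by
      rw [Nat.choose_symm_add]
    rw [h2, h1]
    -- now the other side
    have h3 := choose_id k e (k + m)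
    have h4 : (k + (k + m) + e) = k + e + (k + m) := by omega
    rw [h4, show k + (k + m + e) = k + (e + (k + m)) by omega, mul_comm ((k + e + (k + m)).choose (k + e)), h3]
    congr 1
    rw [add_comm (k + m) e]
    exact Nat.choose_symm_add.symm
  have hTN : T * Nk = ND * (k + d).choose k := by
    obtain ⟨m, rfl⟩ : ∃ m, n = m + 1 := ⟨n - 1, by omega⟩
    rw [hT, hNk, hND, card_Mon, card_Mon]
    rw [show k + d + (m + 1) - 1 = k + d + m by omega, show m + 1 + k - 1 = k + m by omega,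
      show m + 1 + (k + d) - 1 = k + d + m by omega]
    have h1 := choose_id k d m
    rw [mul_comm ((k + d + m).choose (k + d)), h1]
    have h2 := choose_id d k m
    rw [show k + d + m = d + (k + m) by omega, ← h2]
    rw [show k + (d + m) = d + k + m by omega]
    have h3 := choose_id k d m
    rw [show k + (d + m) = d + k + m by omega, show k + d + m = d + k + m by omega] at h3
    rw [← h3, add_comm k d, Nat.choose_symm_add]
  have hNkpos : 0 < (n + k) * Nk := by
    have : 0 < Nk := by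
      rw [hNk, card_Mon]
      exact Nat.choose_pos (by omega)
    positivity
  have hdk : 0 < d.choose k := Nat.choose_pos hkd.le
  have hnum' : 2 * ((n + k) * Nk) ≤ n * Nd := by
    rw [hNk, hNd, card_Mon, card_Mon, ← mul_assoc]
    exact hnum
  obtain ⟨M, hM⟩ : ∃ M, M = (n + k) * Nk := ⟨_, rfl⟩
  rw [← hM] at hNkpos hnum' hgap
  obtain ⟨Q, hQ⟩ : ∃ Q, Q = d.choose k := ⟨_, rfl⟩
  rw [← hQ] at hdk hchoose hstep2
  obtain ⟨P, hP⟩ : ∃ P, P = (k + k + e + n - 1).choose e := ⟨_, rfl⟩
  rw [← hP] at hchoose hstep2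
  obtain ⟨C, hC⟩ : ∃ C, C = (k + d).choose k := ⟨_, rfl⟩
  rw [← hC] at hTN hstep1
  obtain ⟨R, hR⟩ : ∃ R, R = (k + k + n - 1).choose k := ⟨_, rfl⟩
  rw [← hR] at hchoose hgap
  have hmain : C * U.card ≤ r * T := by
    have h1 : Q * M * (C * U.card) + M * G * P ≤ Q * M * (r * T + 2 * E1) := by
      nlinarith [Nat.mul_le_mul_left (Q * M) hstep1, Nat.mul_le_mul_left M hstep2]
    have h2 : n * A.card * r * R * P ≤ M * G * P := Nat.mul_le_mul_right P hgap
    have h3 : n * A.card * r * R * P = Q * (n * A.card * r * T) := by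
      calc n * A.card * r * R * P = n * A.card * r * (R * P) := by ring
        _ = n * A.card * r * (T * Q) := by rw [hchoose]
        _ = _ := by ring
    have h4 : Q * M * (2 * E1) ≤ Q * (n * A.card * r * T) := by
      calc Q * M * (2 * E1) = Q * ((2 * M) * E1) := by ring
        _ ≤ Q * ((n * Nd) * E1) := by gcongr
        _ = Q * (n * (E1 * Nd)) := by ring
        _ ≤ Q * (n * (A.card * r * T)) := by gcongr
        _ = _ := by ring
    have h5 : Q * M * (C * U.card) ≤ Q * M * (r * T) := by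
      have h6 : Q * M * (r * T + 2 * E1) = Q * M * (r * T) + Q * M * (2 * E1) := by ring
      omega
    exact Nat.le_of_mul_le_mul_left h5 (by positivity)
  have hfin : U.card * Nk ≤ r * ND := by
    have hCpos : 0 < C := by rw [hC]; exact Nat.choose_pos (by omega)
    have h1 : C * (U.card * Nk) ≤ C * (r * ND) := by
      calc C * (U.card * Nk) = (C * U.card) * Nk := by ring
        _ ≤ (r * T) * Nk := by gcongr
        _ = r * (T * Nk) := by ring
        _ = r * (ND * C) := by rw [hTN]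
        _ = _ := by ring
    exact Nat.le_of_mul_le_mul_left h1 hCpos
  rw [← hND, ← hNk]
  have h7 : (U.card + (A + B).card) * Nk = ND * (r + A.card) := by rw [hUc, hXc]
  nlinarith [h7, hfin]

end Pool.Agent.TH206.Fro
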