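import Pool.Agent.H15.G.R_seed8.TH206.Fro.Stmts

set_option autoImplicit false

namespace Pool.Agent.TH206.Fro

open Finset

lemma choose_step (n d : ℕ) (hn : 1 ≤ n) : (n + d - 1).choose d ≤ (n + (d + 1) - 1).choose (d + 1) := by
  obtain ⟨m, rfl⟩ : ∃ m, n = m + 1 := ⟨n - 1, by omega⟩
  have h1 : m + 1 + d - 1 = m + d := by omega
  have h2 : m + 1 + (d + 1) - 1 = m + d + 1 := by omega
  rw [h1, h2, Nat.choose_succ_succ]
  omega

lemma choose_mono' (n a b : ℕ) (hn : 1 ≤ n) (hab : a ≤ b) :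
    (n + a - 1).choose a ≤ (n + b - 1).choose b := by
  induction b, hab using Nat.le_induction with
  | base => exact le_rfl
  | succ b _ ih => exact ih.trans (choose_step n b hn)

theorem num_thm : S_NUM := by
  intro n k d hkd hn
  have h1 : (n + (k + 1) - 1).choose (k + 1) ≤ (n + d - 1).choose d :=
    choose_mono' n (k + 1) d (by omega) hkd
  refine le_trans ?_ (Nat.mul_le_mul_left n h1)
  obtain ⟨m, rfl⟩ : ∃ m, n = m + 1 := ⟨n - 1, by omega⟩
  have h2 : m + 1 + k - 1 = m + k := by omega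
  have h3 : m + 1 + (k + 1) - 1 = m + k + 1 := by omega
  rw [h2, h3]
  have h4 : (m + k + 1) * (m + k).choose k = (m + k + 1).choose (k + 1) * (k + 1) :=
    Nat.add_one_mul_choose_eq (m + k) k
  have h5 : 2 * (m + 1 + k) * (m + k).choose k = 2 * (k + 1) * (m + k + 1).choose (k + 1) := by
    calc 2 * (m + 1 + k) * (m + k).choose k = 2 * ((m + k + 1) * (m + k).choose k) := by ring
    _ = 2 * ((m + k + 1).choose (k + 1) * (k + 1)) := by rw [h4]
    _ = _ := by ring
  rw [h5]
  exact Nat.mul_le_mul_right _ (by omega)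

end Pool.Agent.TH206.Fro
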