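import Pool.Agent.H15.G.R_seed8.TH206.Fro.Stmts2

/-!
The coefficients of `(1 - t) ^ (-n) * ∏ i, (1 - t ^ d i)` in degrees smaller than twice the least
degree `d i`.
-/

set_option autoImplicit false

namespace Pool.Agent.TH206.Fro

open Finset

lemma coeff_mk_one_pow {n : ℕ} (hn : 1 ≤ n) (j : ℕ) :
    PowerSeries.coeff j ((PowerSeries.mk fun _ => (1 : ℤ)) ^ n) = ((Mon n j).card : ℤ) := by
  obtain ⟨m, rfl⟩ : ∃ m, n = m + 1 := ⟨n - 1, by omega⟩
  have h : (PowerSeries.mk fun _ => (1 : ℤ)) = PowerSeries.mk 1 := rfl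
  rw [h, PowerSeries.mk_one_pow_eq_mk_choose_add, PowerSeries.coeff_mk, card_Mon]
  have h1 : m + 1 + j - 1 = m + j := by omega
  rw [h1, Nat.choose_symm_add]

lemma coeff_prod_small {r D : ℕ} (d : Fin r → ℕ) (hd : ∀ i, D < 2 * d i) (s : Finset (Fin r)) :
    ∀ m ≤ D, PowerSeries.coeff m (∏ i ∈ s, (1 - (PowerSeries.X : PowerSeries ℤ) ^ d i)) =
      PowerSeries.coeff m (1 - ∑ i ∈ s, (PowerSeries.X : PowerSeries ℤ) ^ d i) := by
  classical
  induction s using Finset.induction_on with
  | empty => intro m _; simp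
  | insert a s ha ih =>
    intro m hm
    rw [Finset.prod_insert ha, Finset.sum_insert ha, sub_mul, one_mul, map_sub, ih m hm,
      ← sub_sub, sub_right_comm, map_sub (PowerSeries.coeff m) (1 - _ ) (PowerSeries.X ^ d a)]
    congr 1
    rw [mul_comm, PowerSeries.coeff_mul_X_pow', PowerSeries.coeff_X_pow]
    have hda := hd a
    by_cases h1 : d a ≤ m
    · rw [if_pos h1, ih (m - d a) (by omega), map_sub, map_sum, PowerSeries.coeff_one]
      have h2 : ∑ i ∈ s, PowerSeries.coeff (m - d a) ((PowerSeries.X : PowerSeries ℤ) ^ d i) = 0 := by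
        refine Finset.sum_eq_zero fun i _ => ?_
        rw [PowerSeries.coeff_X_pow, if_neg]
        have := hd i
        omega
      rw [h2, sub_zero]
      by_cases h3 : m = d a
      · rw [if_pos (by omega), if_pos h3]
      · rw [if_neg (by omega), if_neg h3]
    · rw [if_neg h1, if_neg (by omega)]

theorem co_thm : S_CO := by
  intro n r D d hn hd j hj
  unfold co
  have h1 : PowerSeries.coeff j ((PowerSeries.mk fun _ => (1 : ℤ)) ^ n *
      ∏ i : Fin r, (1 - PowerSeries.X ^ d i)) =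
      PowerSeries.coeff j ((PowerSeries.mk fun _ => (1 : ℤ)) ^ n *
      (1 - ∑ i : Fin r, (PowerSeries.X : PowerSeries ℤ) ^ d i)) := by
    rw [PowerSeries.coeff_mul, PowerSeries.coeff_mul]
    refine Finset.sum_congr rfl fun p hp => ?_
    rw [Finset.HasAntidiagonal.mem_antidiagonal] at hp
    rw [coeff_prod_small d hd univ p.2 (by omega)]
  rw [h1, mul_sub, mul_one, map_sub, coeff_mk_one_pow hn, Finset.mul_sum, map_sum]
  congr 1
  refine Finset.sum_congr rfl fun i _ => ?_
  rw [PowerSeries.coeff_mul_X_pow']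
  split_ifs
  · exact coeff_mk_one_pow hn _
  · rfl

lemma card_Mon_succ {n : ℕ} (hn : 1 ≤ n) (q : ℕ) :
    (Mon n (q + 1)).card * (q + 1) = (Mon n q).card * (n + q) := by
  rw [card_Mon, card_Mon]
  obtain ⟨m, rfl⟩ : ∃ m, n = m + 1 := ⟨n - 1, by omega⟩
  have h1 : m + 1 + (q + 1) - 1 = m + q + 1 := by omega
  have h2 : m + 1 + q - 1 = m + q := by omega
  rw [h1, h2, ← Nat.add_one_mul_choose_eq]
  ring

lemma card_Mon_ratio {n : ℕ} (hn : 1 ≤ n) {q j : ℕ} (hqj : q ≤ j) :
    (Mon n q).card * (n + j) ≤ (Mon n (q + 1)).card * (j + 1) := by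
  have h1 := card_Mon_succ hn q
  have h2 : (n + j) * (q + 1) ≤ (n + q) * (j + 1) := by
    obtain ⟨m, rfl⟩ : ∃ m, n = m + 1 := ⟨n - 1, by omega⟩
    obtain ⟨e, rfl⟩ : ∃ e, j = q + e := ⟨j - q, by omega⟩
    nlinarith [Nat.zero_le (m * e)]
  have h3 : (Mon n q).card * (n + j) * (q + 1) ≤ (Mon n (q + 1)).card * (j + 1) * (q + 1) := by
    calc (Mon n q).card * (n + j) * (q + 1) = (Mon n q).card * ((n + j) * (q + 1)) := by ring
      _ ≤ (Mon n q).card * ((n + q) * (j + 1)) := Nat.mul_le_mul_left _ h2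
      _ = (Mon n q).card * (n + q) * (j + 1) := by ring
      _ = (Mon n (q + 1)).card * (q + 1) * (j + 1) := by rw [h1]
      _ = (Mon n (q + 1)).card * (j + 1) * (q + 1) := by ring
  exact Nat.le_of_mul_le_mul_right h3 (Nat.succ_pos q)

theorem sign_thm : S_SIGN := by
  intro n r D d hn _ j j' hjj' _ h0
  induction j', hjj' using Nat.le_induction with
  | base => exact h0
  | succ m _ ih =>
    have ih := ih (by omega)
    have h1 : ((Mon n (m + 1)).card : ℤ) * (m + 1) = (Mon n m).card * (n + m) := by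
      exact_mod_cast card_Mon_succ hn m
    have h2 : (∑ i, (if d i ≤ m then ((Mon n (m - d i)).card : ℤ) else 0)) * (n + m) ≤
        (∑ i, (if d i ≤ m + 1 then ((Mon n (m + 1 - d i)).card : ℤ) else 0)) * (m + 1) := by
      rw [Finset.sum_mul, Finset.sum_mul]
      refine Finset.sum_le_sum fun i _ => ?_
      by_cases h : d i ≤ m
      · rw [if_pos h, if_pos (by omega), show m + 1 - d i = (m - d i) + 1 by omega]
        exact_mod_cast card_Mon_ratio hn (Nat.sub_le m (d i))
      · rw [if_neg h, zero_mul]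
        split_ifs <;> positivity
    have h3 : ((Mon n m).card : ℤ) ≤ ∑ i, (if d i ≤ m then ((Mon n (m - d i)).card : ℤ) else 0) := by
      linarith
    have h4 : ((Mon n (m + 1)).card : ℤ) * (m + 1) ≤
        (∑ i, (if d i ≤ m + 1 then ((Mon n (m + 1 - d i)).card : ℤ) else 0)) * (m + 1) := by
      rw [h1]
      exact (mul_le_mul_of_nonneg_right h3 (by positivity)).trans h2
    have h5 := le_of_mul_le_mul_right h4 (by positivity : (0 : ℤ) < (m : ℤ) + 1)
    linarith

end Pool.Agent.TH206.Fro
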