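import Pool.Agent.H15.G.R_seed8.TH206.Fro.Stmts

/-!
# The spectral gap of the Polya kernel
-/

set_option autoImplicit false

namespace Pool.Agent.TH206.Fro

open Finset

namespace Gap

variable {n : ℕ}

/-- unit vector -/
noncomputable abbrev e (i : Fin n) : Fin n →₀ ℕ := Finsupp.single i 1

/-- degree -/
noncomputable def dg (c : Fin n →₀ ℕ) : ℕ := ∑ i, c i

theorem dg_add (c d : Fin n →₀ ℕ) : dg (c + d) = dg c + dg d := by
  unfold dg
  rw [← Finset.sum_add_distrib]
  rfl

theorem dg_e (i : Fin n) : dg (e i) = 1 := by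
  unfold dg
  rw [Finset.sum_eq_single i]
  · simp
  · intro j _ hj
    exact Finsupp.single_eq_of_ne hj
  · intro h; exact absurd (mem_univ i) h

theorem mem_dg {k : ℕ} {c : Fin n →₀ ℕ} : c ∈ Mon n k ↔ dg c = k := mem_Mon

/-- weighted sum -/
noncomputable def G (l : ℕ) (c : Fin n →₀ ℕ) (h : (Fin n →₀ ℕ) → ℝ) : ℝ :=
  ∑ y ∈ Mon n l, (W c y : ℝ) * h y

theorem W_step (c y : Fin n →₀ ℕ) (i : Fin n) :
    (y i + 1) * W c (y + e i) = (c i + 1) * W (c + e i) y := by
  unfold W
  rw [← Finset.mul_prod_erase univ _ (mem_univ i), ← Finset.mul_prod_erase univ (fun j =>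
    ((c + e i) j + y j).choose ((c + e i) j)) (mem_univ i)]
  have h1 : ∏ x ∈ univ.erase i, (c x + (y + e i) x).choose (c x) =
      ∏ x ∈ univ.erase i, ((c + e i) x + y x).choose ((c + e i) x) := by
    refine Finset.prod_congr rfl ?_
    intro j hj
    have hji : j ≠ i := Finset.ne_of_mem_erase hj
    have : e i j = 0 := Finsupp.single_eq_of_ne hji
    rw [Finsupp.add_apply, Finsupp.add_apply, this, add_zero, add_zero]
  rw [h1]
  have h2 : e i i = 1 := Finsupp.single_eq_same
  rw [Finsupp.add_apply, Finsupp.add_apply, h2, ← mul_assoc, ← mul_assoc]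
  congr 1
  have h3 := Nat.choose_succ_right_eq (c i + (y i + 1)) (c i)
  have h4 : c i + (y i + 1) - c i = y i + 1 := by omega
  rw [h4] at h3
  have h5 : c i + 1 + y i = c i + (y i + 1) := by omega
  rw [h5]
  linarith

theorem one_var (l : ℕ) (c : Fin n →₀ ℕ) (h : (Fin n →₀ ℕ) → ℝ) (i : Fin n) :
    ∑ y ∈ Mon n (l + 1), (y i : ℝ) * ((W c y : ℝ) * h y) =
      ((c i : ℝ) + 1) * G l (c + e i) (fun y => h (y + e i)) := by
  unfold G
  rw [Finset.mul_sum]
  symm
  refine Finset.sum_bij_ne_zero (fun y _ _ => y + e i) ?_ ?_ ?_ ?_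
  · intro y hy _
    rw [mem_dg] at hy ⊢
    rw [dg_add, dg_e, hy]
  · intro a _ _ b _ _ hab
    exact add_right_cancel hab
  · intro y hy hne
    have hyi : y i ≠ 0 := by
      intro h0
      apply hne
      rw [h0]; simp
    have hsub : y - e i + e i = y := by
      ext j
      by_cases hj : j = i
      · subst hj
        simp only [Finsupp.add_apply, Finsupp.tsub_apply, Finsupp.single_eq_same]
        omega
      · have : e i j = 0 := Finsupp.single_eq_of_ne hj
        rw [Finsupp.add_apply, Finsupp.tsub_apply, this]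
        omega
    refine ⟨y - e i, ?_, ?_, hsub⟩
    · rw [mem_dg] at hy ⊢
      have := dg_add (y - e i) (e i)
      rw [hsub, dg_e, hy] at this
      omega
    · have h1 := W_step c (y - e i) i
      rw [hsub] at h1
      have h2 : (y - e i) i + 1 = y i := by
        have : ((y - e i + e i : Fin n →₀ ℕ)) i = y i := by rw [hsub]
        rw [Finsupp.add_apply] at this
        have h3 : e i i = 1 := Finsupp.single_eq_same
        rw [h3] at this
        exact this
      rw [h2] at h1
      have h4 : ((y i : ℝ)) * (W c y : ℝ) = ((c i : ℝ) + 1) * (W (c + e i) (y - e i) : ℝ) := by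
        exact_mod_cast h1
      show ((c i : ℝ) + 1) * ((W (c + e i) (y - e i) : ℝ) * h (y - e i + e i)) ≠ 0
      rw [hsub, ← mul_assoc, ← h4, mul_assoc]
      exact hne
  · intro y _ _
    have h1 := W_step c y i
    have h4 : ((y i : ℝ) + 1) * (W c (y + e i) : ℝ) = ((c i : ℝ) + 1) * (W (c + e i) y : ℝ) := by
      exact_mod_cast h1
    have h2 : (((y + e i) i : ℕ) : ℝ) = (y i : ℝ) + 1 := by
      have h3 : e i i = 1 := Finsupp.single_eq_same
      rw [Finsupp.add_apply, h3]
      push_cast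
      rfl
    show ((c i : ℝ) + 1) * ((W (c + e i) y : ℝ) * h (y + e i)) =
      (((y + e i) i : ℕ) : ℝ) * ((W c (y + e i) : ℝ) * h (y + e i))
    rw [h2, ← mul_assoc, ← mul_assoc, h4]

theorem recur (l : ℕ) (c : Fin n →₀ ℕ) (h : (Fin n →₀ ℕ) → ℝ) :
    ((l : ℝ) + 1) * G (l + 1) c h =
      ∑ i, ((c i : ℝ) + 1) * G l (c + e i) (fun y => h (y + e i)) := by
  rw [← Finset.sum_congr rfl (fun i _ => one_var l c h i), Finset.sum_comm]
  unfold G
  rw [Finset.mul_sum]
  refine Finset.sum_congr rfl ?_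
  intro y hy
  rw [← Finset.sum_mul]
  congr 1
  rw [mem_dg] at hy
  unfold dg at hy
  have : ((∑ i, y i : ℕ) : ℝ) = ((l + 1 : ℕ) : ℝ) := by rw [hy]
  push_cast at this
  exact this.symm

theorem Mon_zero : Mon n 0 = {0} := by
  ext c
  rw [mem_Mon, mem_singleton]
  constructor
  · intro h
    ext i
    have := Finset.sum_eq_zero_iff.1 h i (mem_univ i)
    simpa using this
  · rintro rfl
    simp

theorem G_zero (c : Fin n →₀ ℕ) (h : (Fin n →₀ ℕ) → ℝ) : G 0 c h = h 0 := by
  unfold G
  rw [Mon_zero, Finset.sum_singleton]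
  have : W c 0 = 1 := by
    unfold W
    apply Finset.prod_eq_one
    intro i _
    simp
  rw [this]; simp

theorem sum_succ (c : Fin n →₀ ℕ) : ∑ i, ((c i : ℝ) + 1) = (dg c : ℝ) + n := by
  rw [Finset.sum_add_distrib]
  unfold dg
  push_cast
  simp

theorem vand (hn : 1 ≤ n) (l : ℕ) : ∀ c : Fin n →₀ ℕ,
    G l c (fun _ => 1) = ((dg c + l + n - 1).choose l : ℝ) := by
  induction l with
  | zero => intro c; rw [G_zero]; simp
  | succ l ih =>
    intro c
    have h1 := recur l c (fun _ => 1)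
    have h2 : ∀ i ∈ (univ : Finset (Fin n)), ((c i : ℝ) + 1) * G l (c + e i) (fun _ => 1) =
        ((c i : ℝ) + 1) * ((dg c + 1 + l + n - 1).choose l : ℝ) := by
      intro i _
      rw [ih, dg_add, dg_e]
    rw [Finset.sum_congr rfl h2, ← Finset.sum_mul, sum_succ] at h1
    have h3 := Nat.choose_succ_right_eq (dg c + (l + 1) + n - 1) l
    have h4 : dg c + (l + 1) + n - 1 - l = dg c + n := by omega
    have h5 : dg c + 1 + l + n - 1 = dg c + (l + 1) + n - 1 := by omega
    rw [h4] at h3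
    rw [h5] at h1
    have h6 : ((dg c + (l + 1) + n - 1).choose (l + 1) : ℝ) * ((l : ℝ) + 1) =
        ((dg c + (l + 1) + n - 1).choose l : ℝ) * ((dg c : ℝ) + n) := by
      exact_mod_cast h3
    have h7 : ((l : ℝ) + 1) ≠ 0 := by positivity
    apply mul_left_cancel₀ h7
    rw [h1]
    linarith

theorem G_abs_sub (l : ℕ) (c : Fin n →₀ ℕ) (h g : (Fin n →₀ ℕ) → ℝ) (L : ℝ)
    (hL : ∀ y ∈ Mon n l, |h y - g y| ≤ L) : |G l c h - G l c g| ≤ G l c (fun _ => 1) * L := by
  unfold G
  rw [← Finset.sum_sub_distrib, Finset.sum_mul]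
  refine (Finset.abs_sum_le_sum_abs _ _).trans (Finset.sum_le_sum ?_)
  intro y hy
  rw [← mul_sub, abs_mul, mul_one, Nat.abs_cast]
  exact mul_le_mul_of_nonneg_left (hL y hy) (Nat.cast_nonneg _)

/-- the constant of the contraction -/
def Bn (n : ℕ) : ℕ → ℕ → ℕ
  | 0, _ => 0
  | l + 1, b => (b + 1 + l + n).choose l

theorem Bn_succ (l b : ℕ) : Bn n (l + 1) b = (b + 1 + l + n).choose l := rfl

theorem single_mem (hn : 1 ≤ n) (m : ℕ) : Finsupp.single (⟨0, hn⟩ : Fin n) m ∈ Mon n m := by
  rw [mem_Mon]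
  simp

theorem Bn_rec (l b : ℕ) : (b + n + 2) * Bn n l (b + 1) = l * (b + 1 + l + n).choose l := by
  rcases l with _ | l
  · simp [Bn]
  · show (b + n + 2) * (b + 1 + 1 + l + n).choose l = (l + 1) * (b + 1 + (l + 1) + n).choose (l + 1)
    have h3 := Nat.choose_succ_right_eq (b + 1 + (l + 1) + n) l
    have h4 : b + 1 + (l + 1) + n - l = b + n + 2 := by omega
    have h5 : b + 1 + 1 + l + n = b + 1 + (l + 1) + n := by omega
    rw [h4] at h3
    rw [h5]
    linarith

theorem lip (hn : 1 ≤ n) (l : ℕ) : ∀ (h : (Fin n →₀ ℕ) → ℝ) (L : ℝ),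
    (∀ z : Fin n →₀ ℕ, dg z + 1 = l → ∀ i j, |h (z + e i) - h (z + e j)| ≤ L) →
    ∀ (y : Fin n →₀ ℕ) (i j : Fin n),
      |G l (y + e i) h - G l (y + e j) h| ≤ (Bn n l (dg y) : ℝ) * L := by
  induction l with
  | zero =>
    intro h L _ y i j
    rw [G_zero, G_zero]
    simp [Bn]
  | succ l ih =>
    intro h L hL y i j
    -- the recursion for `y + e i`
    have key : ∀ i : Fin n, ((l : ℝ) + 1) * G (l + 1) (y + e i) h =
        ∑ t, ((y t : ℝ) + 1) * G l (y + e t + e i) (fun z => h (z + e t)) +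
          G l (y + e i + e i) (fun z => h (z + e i)) := by
      intro i
      rw [recur]
      have h1 : ∀ t ∈ (univ : Finset (Fin n)),
          ((((y + e i) t : ℕ) : ℝ) + 1) * G l (y + e i + e t) (fun z => h (z + e t)) =
          ((y t : ℝ) + 1) * G l (y + e t + e i) (fun z => h (z + e t)) +
            (if t = i then G l (y + e i + e i) (fun z => h (z + e i)) else 0) := by
        intro t _
        by_cases ht : t = i
        · subst ht
          have h3 : e t t = 1 := Finsupp.single_eq_same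
          rw [if_pos rfl, Finsupp.add_apply, h3]
          push_cast
          ring
        · have h3 : e i t = 0 := Finsupp.single_eq_of_ne ht
          have h4 : y + e i + e t = y + e t + e i := by
            rw [add_assoc, add_assoc, add_comm (e i) (e t)]
          rw [if_neg ht, Finsupp.add_apply, h3, h4]
          push_cast
          ring
      rw [Finset.sum_congr rfl h1, Finset.sum_add_distrib, Finset.sum_ite_eq']
      simp
    have hL' : ∀ t : Fin n, ∀ z : Fin n →₀ ℕ, dg z + 1 = l → ∀ i j,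
        |h (z + e i + e t) - h (z + e j + e t)| ≤ L := by
      intro t z hz i j
      have := hL (z + e t) (by rw [dg_add, dg_e, hz]) i j
      have e1 : ∀ s : Fin n, z + e t + e s = z + e s + e t := by
        intro s
        rw [add_assoc, add_assoc, add_comm (e t) (e s)]
      rwa [e1, e1] at this
    have h1 : |∑ t, ((y t : ℝ) + 1) * G l (y + e t + e i) (fun z => h (z + e t)) -
        ∑ t, ((y t : ℝ) + 1) * G l (y + e t + e j) (fun z => h (z + e t))| ≤
        ((dg y : ℝ) + n) * ((Bn n l (dg y + 1) : ℝ) * L) := by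
      rw [← Finset.sum_sub_distrib, ← sum_succ, Finset.sum_mul]
      refine (Finset.abs_sum_le_sum_abs _ _).trans (Finset.sum_le_sum ?_)
      intro t _
      have h0 : (0 : ℝ) ≤ (y t : ℝ) + 1 := by positivity
      rw [← mul_sub, abs_mul, abs_of_nonneg h0]
      have := ih (fun z => h (z + e t)) L (hL' t) (y + e t) i j
      rw [dg_add, dg_e] at this
      exact mul_le_mul_of_nonneg_left this h0
    have h2 : |G l (y + e i + e i) (fun z => h (z + e i)) -
        G l (y + e i + e j) (fun z => h (z + e i))| ≤ (Bn n l (dg y + 1) : ℝ) * L := by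
      have := ih (fun z => h (z + e i)) L (hL' i) (y + e i) i j
      rwa [dg_add, dg_e] at this
    have h3 : |G l (y + e i + e j) (fun z => h (z + e i)) -
        G l (y + e i + e j) (fun z => h (z + e j))| ≤
        ((dg y + 1 + l + n).choose l : ℝ) * L := by
      have := G_abs_sub l (y + e i + e j) (fun z => h (z + e i)) (fun z => h (z + e j)) L
        (fun z hz => hL z (by rw [mem_dg.1 hz]) i j)
      rw [vand hn, dg_add, dg_add, dg_e, dg_e] at this
      have e1 : dg y + 1 + 1 + l + n - 1 = dg y + 1 + l + n := by omega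
      rwa [e1] at this
    have h4 : |G l (y + e i + e j) (fun z => h (z + e j)) -
        G l (y + e j + e j) (fun z => h (z + e j))| ≤ (Bn n l (dg y + 1) : ℝ) * L := by
      have := ih (fun z => h (z + e j)) L (hL' j) (y + e j) i j
      rw [dg_add, dg_e] at this
      have e1 : y + e j + e i = y + e i + e j := by
        rw [add_assoc, add_assoc, add_comm (e j) (e i)]
      rwa [e1] at this
    have h5 : ((l : ℝ) + 1) * |G (l + 1) (y + e i) h - G (l + 1) (y + e j) h| ≤
        ((dg y : ℝ) + n + 2) * (Bn n l (dg y + 1) : ℝ) * L +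
          ((dg y + 1 + l + n).choose l : ℝ) * L := by
      have h0 : (0 : ℝ) ≤ (l : ℝ) + 1 := by positivity
      rw [← abs_of_nonneg h0, ← abs_mul, mul_sub, key i, key j]
      rw [abs_le] at h1 h2 h3 h4 ⊢
      constructor <;> nlinarith
    have h6 : ((dg y : ℝ) + n + 2) * (Bn n l (dg y + 1) : ℝ) =
        (l : ℝ) * ((dg y + 1 + l + n).choose l : ℝ) := by
      exact_mod_cast Bn_rec l (dg y)
    rw [h6] at h5
    have h7 : (l : ℝ) * ((dg y + 1 + l + n).choose l : ℝ) * L +
        ((dg y + 1 + l + n).choose l : ℝ) * L =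
        ((l : ℝ) + 1) * (((dg y + 1 + l + n).choose l : ℝ) * L) := by ring
    rw [h7] at h5
    exact le_of_mul_le_mul_left h5 (by positivity)

/-! ### Connectedness -/

theorem const_of (k : ℕ) (hn : 1 ≤ n) (f : (Fin n →₀ ℕ) → ℝ)
    (hf : ∀ z : Fin n →₀ ℕ, dg z + 1 = k → ∀ i j, f (z + e i) = f (z + e j)) :
    ∀ c ∈ Mon n k, f c = f (Finsupp.single (⟨0, hn⟩ : Fin n) k) := by
  have key : ∀ m : ℕ, ∀ c : Fin n →₀ ℕ, dg c = k → c ⟨0, hn⟩ + m = k →
      f c = f (Finsupp.single (⟨0, hn⟩ : Fin n) k) := by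
    intro m
    induction m with
    | zero =>
      intro c hc hc0
      have h1 : c = Finsupp.single (⟨0, hn⟩ : Fin n) k := by
        ext j
        by_cases hj : j = ⟨0, hn⟩
        · subst hj
          rw [Finsupp.single_eq_same]
          omega
        · rw [Finsupp.single_eq_of_ne hj]
          unfold dg at hc
          rw [← Finset.add_sum_erase univ _ (mem_univ (⟨0, hn⟩ : Fin n))] at hc
          have h2 : ∑ x ∈ univ.erase (⟨0, hn⟩ : Fin n), c x = 0 := by omega
          exact Finset.sum_eq_zero_iff.1 h2 j (Finset.mem_erase.2 ⟨hj, mem_univ j⟩)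
      rw [h1]
    | succ m ih =>
      intro c hc hc0
      have hex : ∃ j, j ≠ (⟨0, hn⟩ : Fin n) ∧ 0 < c j := by
        by_contra hcon
        push Not at hcon
        unfold dg at hc
        rw [← Finset.add_sum_erase univ _ (mem_univ (⟨0, hn⟩ : Fin n))] at hc
        have h2 : ∑ x ∈ univ.erase (⟨0, hn⟩ : Fin n), c x = 0 := by
          apply Finset.sum_eq_zero
          intro x hx
          have := hcon x (Finset.ne_of_mem_erase hx)
          omega
        omega
      obtain ⟨j, hj, hcj⟩ := hex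
      have hsub : c - e j + e j = c := by
        ext t
        by_cases ht : t = j
        · subst ht
          simp only [Finsupp.add_apply, Finsupp.tsub_apply, Finsupp.single_eq_same]
          omega
        · have : e j t = 0 := Finsupp.single_eq_of_ne ht
          rw [Finsupp.add_apply, Finsupp.tsub_apply, this]
          omega
      have hdg : dg (c - e j) + 1 = k := by
        have := dg_add (c - e j) (e j)
        rw [hsub, dg_e, hc] at this
        exact this.symm
      have h1 := hf (c - e j) hdg j ⟨0, hn⟩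
      rw [hsub] at h1
      rw [h1]
      apply ih
      · rw [dg_add, dg_e]; exact hdg
      · have h2 : (c - e j) ⟨0, hn⟩ = c ⟨0, hn⟩ := by
          have : e j ⟨0, hn⟩ = 0 := Finsupp.single_eq_of_ne (Ne.symm hj)
          rw [Finsupp.tsub_apply, this]
          rfl
        have h3 : e (⟨0, hn⟩ : Fin n) ⟨0, hn⟩ = 1 := Finsupp.single_eq_same
        rw [Finsupp.add_apply, h2, h3]
        omega
  intro c hc
  rw [mem_dg] at hc
  have hle : c ⟨0, hn⟩ ≤ k := by
    rw [← hc]
    unfold dg
    exact Finset.single_le_sum (f := fun i => c i) (fun _ _ => Nat.zero_le _) (mem_univ _)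
  exact key (k - c ⟨0, hn⟩) c hc (by omega)

/-- eigenvalues belonging to functions which are not constant -/
theorem eig (k : ℕ) (hn : 1 ≤ n) (f : (Fin n →₀ ℕ) → ℝ) (μ : ℝ)
    (hf : ∀ c ∈ Mon n k, G k c f = μ * f c)
    (hnc : ¬ ∀ c ∈ Mon n k, f c = f (Finsupp.single (⟨0, hn⟩ : Fin n) k)) :
    μ ≤ (Bn n k (k - 1) : ℝ) := by
  classical
  -- the maximal difference
  obtain ⟨T, hT⟩ : ∃ T : Finset ((Fin n →₀ ℕ) × Fin n × Fin n),
      T = Mon n (k - 1) ×ˢ (univ ×ˢ univ) := ⟨_, rfl⟩
  have hk : 1 ≤ k := by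
    by_contra hk
    apply hnc
    have hk0 : k = 0 := by omega
    subst hk0
    intro c hc
    rw [Mon_zero, mem_singleton] at hc
    rw [hc]; simp
  have hTne : T.Nonempty := by
    rw [hT]
    refine ⟨(Finsupp.single (⟨0, hn⟩ : Fin n) (k - 1), ⟨0, hn⟩, ⟨0, hn⟩), ?_⟩
    rw [mem_product, mem_product]
    exact ⟨single_mem hn (k - 1), mem_univ _, mem_univ _⟩
  obtain ⟨p, hp, hmax⟩ := Finset.exists_max_image T
    (fun q => |f (q.1 + e q.2.1) - f (q.1 + e q.2.2)|) hTne
  have hpM : dg p.1 + 1 = k := by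
    rw [hT, mem_product] at hp
    have := mem_dg.1 hp.1
    omega
  obtain ⟨L, hL⟩ : ∃ L, L = |f (p.1 + e p.2.1) - f (p.1 + e p.2.2)| := ⟨_, rfl⟩
  have hLip : ∀ z : Fin n →₀ ℕ, dg z + 1 = k → ∀ i j, |f (z + e i) - f (z + e j)| ≤ L := by
    intro z hz i j
    rw [hL]
    refine hmax (z, i, j) ?_
    rw [hT, mem_product, mem_product]
    exact ⟨mem_dg.2 (by show dg z = k - 1; omega), mem_univ _, mem_univ _⟩
  have hLpos : 0 < L := by
    rcases (abs_nonneg (f (p.1 + e p.2.1) - f (p.1 + e p.2.2))).lt_or_eq with h | h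
    · rw [hL]; exact h
    · exfalso
      apply hnc
      apply const_of k hn f
      intro z hz i j
      have h1 := hLip z hz i j
      rw [hL, ← h] at h1
      have h2 := abs_nonpos_iff.1 h1
      linarith
  have h1 := lip hn k f L hLip p.1 p.2.1 p.2.2
  rw [hf _ (mem_dg.2 (by rw [dg_add, dg_e]; exact hpM)),
    hf _ (mem_dg.2 (by rw [dg_add, dg_e]; exact hpM)), ← mul_sub, abs_mul, ← hL] at h1
  have h2 : dg p.1 = k - 1 := by omega
  rw [h2] at h1
  exact (le_abs_self μ).trans (le_of_mul_le_mul_right h1 hLpos)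

theorem W_symm (c d : Fin n →₀ ℕ) : W c d = W d c := by
  unfold W
  refine Finset.prod_congr rfl ?_
  intro i _
  rw [add_comm (d i) (c i)]
  exact Nat.choose_symm_add

/-- the matrix of the kernel -/
noncomputable def M (n k : ℕ) : Matrix {c // c ∈ Mon n k} {c // c ∈ Mon n k} ℝ :=
  fun c d => (W c.1 d.1 : ℝ)

theorem M_herm (k : ℕ) : (M n k).IsHermitian := by
  ext c d
  simp only [Matrix.conjTranspose_apply, star_trivial]
  unfold M
  rw [W_symm]

theorem quad (k : ℕ) (hn : 1 ≤ n) (f : {c // c ∈ Mon n k} → ℝ) (hf : ∑ c, f c = 0) :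
    ∑ c, ∑ d, f c * ((W c.1 d.1 : ℝ) * f d) ≤ (Bn n k (k - 1) : ℝ) * ∑ c, f c ^ 2 := by
  classical
  have hM := M_herm (n := n) k
  let b := hM.eigenvectorBasis
  let F : EuclideanSpace ℝ {c // c ∈ Mon n k} := WithLp.toLp 2 f
  let MF : EuclideanSpace ℝ {c // c ∈ Mon n k} := WithLp.toLp 2 ((M n k).mulVec f)
  have hsymm : ∀ j, inner ℝ (b j) MF = hM.eigenvalues j * inner ℝ (b j) F := by
    intro j
    have h1 := hM.mulVec_eigenvectorBasis j
    have h2 : inner ℝ (b j) MF = ((M n k).mulVec f) ⬝ᵥ (b j).ofLp := by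
      rw [EuclideanSpace.inner_eq_star_dotProduct]
      simp [MF]
    have h3 : inner ℝ (b j) F = f ⬝ᵥ (b j).ofLp := by
      rw [EuclideanSpace.inner_eq_star_dotProduct]
      simp [F]
    rw [h2, h3]
    have h4 : (M n k).mulVec f = Matrix.vecMul f (M n k) := by
      rw [← Matrix.mulVec_transpose]
      congr 1
      ext c d
      simp only [Matrix.transpose_apply]
      unfold M
      rw [W_symm]
    rw [h4, ← Matrix.dotProduct_mulVec]
    have h5 : (M n k).mulVec (b j).ofLp = hM.eigenvalues j • (b j).ofLp := h1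
    rw [h5, dotProduct_smul]
    rfl
  have h1 : ∑ c, ∑ d, f c * ((W c.1 d.1 : ℝ) * f d) = inner ℝ F MF := by
    rw [EuclideanSpace.inner_eq_star_dotProduct]
    simp only [F, MF, star_trivial]
    unfold dotProduct Matrix.mulVec dotProduct M
    refine Finset.sum_congr rfl ?_
    intro c _
    rw [← Finset.mul_sum, mul_comm]
  have h2 : ∑ c, f c ^ 2 = inner ℝ F F := by
    rw [EuclideanSpace.inner_eq_star_dotProduct]
    simp only [F, star_trivial]
    unfold dotProduct
    refine Finset.sum_congr rfl ?_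
    intro c _
    ring
  rw [h1, h2, ← b.sum_inner_mul_inner F MF, ← b.sum_inner_mul_inner F F, Finset.mul_sum]
  refine Finset.sum_le_sum ?_
  intro j _
  rw [hsymm j]
  have h3 : inner ℝ F (b j) = inner ℝ (b j) F := real_inner_comm _ _
  rw [h3]
  by_cases hc : ∀ c : {c // c ∈ Mon n k}, (b j).ofLp c =
      (b j).ofLp ⟨Finsupp.single (⟨0, hn⟩ : Fin n) k, by rw [mem_Mon]; simp⟩
  · have h4 : inner ℝ (b j) F = 0 := by
      rw [EuclideanSpace.inner_eq_star_dotProduct]
      simp only [F, star_trivial]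
      unfold dotProduct
      rw [Finset.sum_congr rfl (fun c _ => by rw [hc c]), ← Finset.sum_mul, hf, zero_mul]
    rw [h4]; simp
  · have h5 : hM.eigenvalues j ≤ (Bn n k (k - 1) : ℝ) := by
      refine eig k hn (fun c => if hc : c ∈ Mon n k then (b j).ofLp ⟨c, hc⟩ else 0)
        (hM.eigenvalues j) ?_ ?_
      · intro c hc
        have h6 := congrFun (hM.mulVec_eigenvectorBasis j) ⟨c, hc⟩
        rw [dif_pos hc]
        have h7 : ((hM.eigenvalues j • (b j).ofLp : {c // c ∈ Mon n k} → ℝ)) ⟨c, hc⟩ =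
          hM.eigenvalues j * (b j).ofLp ⟨c, hc⟩ := rfl
        rw [← h7]
        refine Eq.trans ?_ h6
        unfold G
        rw [← Finset.sum_coe_sort (Mon n k)]
        show _ = ∑ d, M n k ⟨c, hc⟩ d * (hM.eigenvectorBasis j).ofLp d
        refine Finset.sum_congr rfl ?_
        intro d _
        have h10 : (if hc : d.1 ∈ Mon n k then (b j).ofLp ⟨d.1, hc⟩ else 0) = (b j).ofLp d :=
          dif_pos d.2
        exact congrArg (fun z => (W c d.1 : ℝ) * z) h10
      · intro hcon
        apply hc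
        intro c
        have h8 := hcon c.1 c.2
        rw [dif_pos c.2, dif_pos (by rw [mem_Mon]; simp)] at h8
        exact h8
    have h9 : 0 ≤ inner ℝ (b j) F * inner ℝ (b j) F := mul_self_nonneg _
    nlinarith

end Gap

open Gap in
theorem gap_thm : S_GAP := by
  classical
  intro n k hn A hA
  obtain ⟨X, hX⟩ : ∃ X, X = Mon n k \ A := ⟨_, rfl⟩
  rw [← hX]
  obtain ⟨N, hN⟩ : ∃ N, N = (Mon n k).card := ⟨_, rfl⟩
  have hNpos : 0 < N := by
    rw [hN, Finset.card_pos]
    exact ⟨_, single_mem hn k⟩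
  have hcard : A.card + X.card = N := by
    rw [hX, hN]
    have := Finset.card_sdiff_add_card_eq_card hA
    omega
  rw [← hN]
  obtain ⟨S, hS⟩ : ∃ S, S = (k + k + n - 1).choose k := ⟨_, rfl⟩
  rw [← hS]
  -- row sums
  have hrow : ∀ c ∈ Mon n k, ∑ d ∈ Mon n k, (W c d : ℝ) = S := by
    intro c hc
    have := vand hn k c
    rw [mem_dg.1 hc, ← hS] at this
    rw [← this]
    unfold G
    simp
  obtain ⟨P, hP⟩ : ∃ P : ℝ, P = ∑ c ∈ A, ∑ d ∈ A, (W c d : ℝ) := ⟨_, rfl⟩
  obtain ⟨Q, hQ⟩ : ∃ Q : ℕ, Q = ∑ c ∈ A, ∑ d ∈ X, W c d := ⟨_, rfl⟩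
  rw [← hQ]
  have hPQ : P + Q = (A.card : ℝ) * S := by
    have h1 : ∀ c ∈ A, ∑ d ∈ A, (W c d : ℝ) + ∑ d ∈ X, (W c d : ℝ) = S := by
      intro c hc
      rw [← hrow c (hA hc), hX, add_comm]
      exact Finset.sum_sdiff hA
    rw [hP, hQ]
    push_cast
    rw [← Finset.sum_add_distrib, Finset.sum_congr rfl h1, Finset.sum_const, nsmul_eq_mul]
  obtain ⟨t, ht⟩ : ∃ t : ℝ, t = (A.card : ℝ) / N := ⟨_, rfl⟩
  have htN : t * N = A.card := by
    rw [ht, div_mul_cancel₀]
    positivity
  let ind : (Fin n →₀ ℕ) → ℝ := fun c => if c ∈ A then 1 else 0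
  have hind : ∀ g : (Fin n →₀ ℕ) → ℝ, ∑ c ∈ Mon n k, ind c * g c = ∑ c ∈ A, g c := by
    intro g
    have h1 : ∀ c ∈ Mon n k, ind c * g c = if c ∈ A then g c else 0 := by
      intro c _
      show (if c ∈ A then (1:ℝ) else 0) * g c = _
      split_ifs <;> simp
    rw [Finset.sum_congr rfl h1, ← Finset.sum_filter, Finset.filter_mem_eq_inter,
      Finset.inter_eq_right.2 hA]
  have hind1 : ∑ c ∈ Mon n k, ind c = A.card := by
    have := hind (fun _ => 1)
    simpa using this
  have hcardN : ∑ c ∈ Mon n k, (1 : ℝ) = N := by rw [hN]; simp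
  -- the quadratic form
  have hq := quad k hn (fun c : {c // c ∈ Mon n k} => ind c.1 - t) (by
    rw [Finset.sum_coe_sort (Mon n k) (fun c => ind c - t), Finset.sum_sub_distrib, hind1,
      Finset.sum_const, nsmul_eq_mul, ← hN, mul_comm, htN, sub_self])
  have hsq : ∑ c : {c // c ∈ Mon n k}, (ind c.1 - t) ^ 2 = (A.card : ℝ) - t * A.card := by
    rw [Finset.sum_coe_sort (Mon n k) (fun c => (ind c - t) ^ 2)]
    have h1 : ∀ c ∈ Mon n k, (ind c - t) ^ 2 = ind c * 1 - 2 * t * ind c + t ^ 2 * 1 := by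
      intro c _
      have : ind c * ind c = ind c := by
        show (if c ∈ A then (1:ℝ) else 0) * (if c ∈ A then (1:ℝ) else 0) =
          (if c ∈ A then (1:ℝ) else 0)
        split_ifs <;> simp
      linear_combination this
    rw [Finset.sum_congr rfl h1, Finset.sum_add_distrib, Finset.sum_sub_distrib, ← Finset.mul_sum,
      ← Finset.mul_sum, hind1, hcardN, hind (fun _ => 1)]
    simp only [Finset.sum_const, nsmul_eq_mul, mul_one]
    linear_combination t * htN
  have hform : ∑ c : {c // c ∈ Mon n k}, ∑ d : {c // c ∈ Mon n k},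
      (ind c.1 - t) * ((W c.1 d.1 : ℝ) * (ind d.1 - t)) = P - t * A.card * S := by
    have h0 : ∀ c : {c // c ∈ Mon n k}, ∑ d : {c // c ∈ Mon n k},
        (ind c.1 - t) * ((W c.1 d.1 : ℝ) * (ind d.1 - t)) =
        (ind c.1 - t) * (∑ d ∈ A, (W c.1 d : ℝ) - t * S) := by
      intro c
      rw [← Finset.mul_sum]
      congr 1
      rw [Finset.sum_coe_sort (Mon n k) (fun d => (W c.1 d : ℝ) * (ind d - t))]
      have h1 : ∀ d ∈ Mon n k, (W c.1 d : ℝ) * (ind d - t) = ind d * (W c.1 d : ℝ) -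
          t * (W c.1 d : ℝ) := by intro d _; ring
      rw [Finset.sum_congr rfl h1, Finset.sum_sub_distrib, ← Finset.mul_sum, hrow c.1 c.2,
        hind (fun d => (W c.1 d : ℝ))]
    rw [Finset.sum_congr rfl (fun c _ => h0 c),
      Finset.sum_coe_sort (Mon n k) (fun c => (ind c - t) * (∑ d ∈ A, (W c d : ℝ) - t * S))]
    have h1 : ∀ c ∈ Mon n k, (ind c - t) * (∑ d ∈ A, (W c d : ℝ) - t * S) =
        ind c * (∑ d ∈ A, (W c d : ℝ)) - t * S * ind c - t * (∑ d ∈ A, (W c d : ℝ)) +
          t ^ 2 * S * 1 := by intro c _; ring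
    rw [Finset.sum_congr rfl h1, Finset.sum_add_distrib, Finset.sum_sub_distrib,
      Finset.sum_sub_distrib, ← Finset.mul_sum, ← Finset.mul_sum, ← Finset.mul_sum, hind1, hcardN,
      hind (fun c => ∑ d ∈ A, (W c d : ℝ)), ← hP]
    have h2 : ∑ c ∈ Mon n k, ∑ d ∈ A, (W c d : ℝ) = A.card * S := by
      rw [Finset.sum_comm]
      have h3 : ∀ d ∈ A, ∑ c ∈ Mon n k, (W c d : ℝ) = S := by
        intro d hd
        rw [← hrow d (hA hd)]
        exact Finset.sum_congr rfl (fun c _ => by rw [W_symm])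
      rw [Finset.sum_congr rfl h3, Finset.sum_const, nsmul_eq_mul]
    rw [h2]
    linear_combination t * S * htN
  rw [hform, hsq] at hq
  -- the binomial identity
  have hbin : ((n : ℝ) + k) * (Bn n k (k - 1) : ℝ) = k * S := by
    rcases k with _ | l
    · simp [Bn]
    · have h3 := Nat.choose_succ_right_eq (l + 1 + (l + 1) + n - 1) l
      have h4 : l + 1 + (l + 1) + n - 1 - l = n + (l + 1) := by omega
      have h5 : l + 1 - 1 + 1 + l + n = l + 1 + (l + 1) + n - 1 := by omega
      rw [h4] at h3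
      have h6 : ((l + 1 + (l + 1) + n - 1).choose (l + 1) : ℝ) * ((l : ℝ) + 1) =
          ((l + 1 + (l + 1) + n - 1).choose l : ℝ) * ((n : ℝ) + (l + 1)) := by
        exact_mod_cast h3
      rw [Bn_succ, h5, hS, Nat.cast_succ]
      linarith
  have hfin : (n : ℝ) * A.card * X.card * S ≤ ((n : ℝ) + k) * N * Q := by
    have hXc : (X.card : ℝ) = N - A.card := by
      rw [← hcard]; push_cast; ring
    have h1 : (Q : ℝ) = A.card * S - P := by linarith
    have hNr : (0 : ℝ) < N := by exact_mod_cast hNpos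
    have h2 : (0:ℝ) ≤ (n : ℝ) + k := by positivity
    -- multiply the inequality for the quadratic form by `(n + k) N`
    have h3 := mul_le_mul_of_nonneg_left hq (mul_nonneg h2 hNr.le)
    have h4 : ((n : ℝ) + k) * N * (P - t * A.card * S) =
        ((n : ℝ) + k) * (N * P - A.card * A.card * S) := by
      linear_combination -(((n : ℝ) + k) * A.card * S) * htN
    have h5 : ((n : ℝ) + k) * N * ((Bn n k (k - 1) : ℝ) * ((A.card : ℝ) - t * A.card)) =
        k * S * (N * A.card - A.card * A.card) := by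
      linear_combination (N * A.card - t * N * A.card) * hbin - (k * S * A.card) * htN
    rw [h4, h5] at h3
    rw [hXc, h1]
    nlinarith
  exact_mod_cast hfin

end Pool.Agent.TH206.Fro
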