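import Pool.Agent.H15.G.R_seed8.TH206.Fro.Stmts

set_option autoImplicit false

namespace Pool.Agent.TH206.Fro

open Finset

lemma add_single_mem {n l : ℕ} {y : Fin n →₀ ℕ} (hy : y ∈ Mon n l) (i : Fin n) :
    y + Finsupp.single i 1 ∈ Mon n (l + 1) := by
  rw [mem_Mon'] at hy ⊢
  rw [map_add, hy, Finsupp.degree_single]

lemma sub_single_add {n : ℕ} {y : Fin n →₀ ℕ} {i : Fin n} (h : 0 < y i) :
    y - Finsupp.single i 1 + Finsupp.single i 1 = y := by
  apply tsub_add_cancel_of_le
  rw [Finsupp.single_le_iff]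
  exact h

lemma mv_add {n : ℕ} {c : Fin n →₀ ℕ} {i : Fin n} (j : Fin n) (h : 0 < c i) (e : Fin n →₀ ℕ) :
    mv j i (c + e) = mv j i c + e := by
  unfold mv
  have h1 : c + e - Finsupp.single i 1 = c - Finsupp.single i 1 + e := by
    apply tsub_eq_of_eq_add
    rw [add_right_comm, sub_single_add h]
  rw [h1, add_right_comm]

lemma mv_add_single {n : ℕ} (c : Fin n →₀ ℕ) (i j : Fin n) :
    mv j i (c + Finsupp.single i 1) = c + Finsupp.single j 1 := by
  unfold mv
  rw [add_tsub_cancel_right]

lemma mv_cast {n : ℕ} (c : Fin n →₀ ℕ) (i j : Fin n) (hci : 0 < c i) (t : Fin n) :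
    (((mv j i c) t : ℕ) : ℚ) =
      (c t : ℚ) + (if t = j then 1 else 0) - (if t = i then 1 else 0) := by
  obtain ⟨e, rfl⟩ : ∃ e, c = e + Finsupp.single i 1 :=
    ⟨c - Finsupp.single i 1, (sub_single_add hci).symm⟩
  rw [mv_add_single]
  simp only [Finsupp.add_apply, Finsupp.single_apply, Nat.cast_add, Nat.cast_ite, Nat.cast_one,
    Nat.cast_zero, eq_comm (a := j), eq_comm (a := i)]
  ring

lemma W_step {n : ℕ} (c y : Fin n →₀ ℕ) (i : Fin n) :
    (y i + 1) * W c (y + Finsupp.single i 1) = (c i + 1) * W (c + Finsupp.single i 1) y := by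
  classical
  obtain ⟨y', hy'⟩ : ∃ y' : Fin n →₀ ℕ, y' = y + Finsupp.single i 1 := ⟨_, rfl⟩
  obtain ⟨c', hc'⟩ : ∃ c' : Fin n →₀ ℕ, c' = c + Finsupp.single i 1 := ⟨_, rfl⟩
  rw [← hy', ← hc']
  unfold W
  rw [← Finset.mul_prod_erase univ (fun t => (c t + y' t).choose (c t)) (Finset.mem_univ i),
    ← Finset.mul_prod_erase univ (fun t => (c' t + y t).choose (c' t)) (Finset.mem_univ i)]
  have h1 : ∏ x ∈ univ.erase i, (c x + y' x).choose (c x) =
      ∏ x ∈ univ.erase i, (c' x + y x).choose (c' x) := by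
    refine Finset.prod_congr rfl fun x hx => ?_
    have hne : x ≠ i := Finset.ne_of_mem_erase hx
    rw [hy', hc']
    simp [Finsupp.single_eq_of_ne hne]
  have hy1 : y' i = y i + 1 := by rw [hy']; simp
  have hc1 : c' i = c i + 1 := by rw [hc']; simp
  rw [h1, ← mul_assoc, ← mul_assoc, hy1, hc1]
  congr 1
  have h2 := Nat.choose_succ_right_eq (c i + (y i + 1)) (c i)
  have h3 : c i + (y i + 1) - c i = y i + 1 := by omega
  have h4 : c i + 1 + y i = c i + (y i + 1) := by omega
  rw [h3] at h2
  rw [h4, mul_comm, ← h2, mul_comm]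

lemma sum_shift {n : ℕ} (l : ℕ) (i : Fin n) (f : (Fin n →₀ ℕ) → ℚ) :
    ∑ y ∈ Mon n (l + 1), (y i : ℚ) * f y =
      ∑ y ∈ Mon n l, ((y i : ℚ) + 1) * f (y + Finsupp.single i 1) := by
  classical
  have h1 : ∑ y ∈ Mon n (l + 1), (y i : ℚ) * f y =
      ∑ y ∈ (Mon n (l + 1)).filter (fun y => 0 < y i), (y i : ℚ) * f y := by
    rw [Finset.sum_filter_of_ne]
    intro y _ hne
    by_contra h0
    apply hne
    have : y i = 0 := by omega
    simp [this]
  rw [h1]
  symm
  refine Finset.sum_bij' (fun y _ => y + Finsupp.single i 1) (fun y _ => y - Finsupp.single i 1)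
    ?_ ?_ ?_ ?_ ?_
  · intro y hy
    rw [Finset.mem_filter]
    exact ⟨add_single_mem hy i, by simp⟩
  · intro y hy
    rw [Finset.mem_filter] at hy
    have h2 := sub_single_add hy.2
    have h3 := hy.1
    rw [mem_Mon'] at h3 ⊢
    have h4 : Finsupp.degree (y - Finsupp.single i 1 + Finsupp.single i 1) = l + 1 := by
      rw [h2, h3]
    rw [map_add, Finsupp.degree_single] at h4
    omega
  · intro y _
    simp
  · intro y hy
    rw [Finset.mem_filter] at hy
    exact sub_single_add hy.2
  · intro y _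
    simp

theorem rec_thm : S_REC := by
  intro n k l h c _
  rw [Finset.mul_sum]
  have h1 : ∀ y ∈ Mon n (l + 1), ((l : ℚ) + 1) * ((W c y : ℚ) * h y) =
      ∑ i : Fin n, (y i : ℚ) * ((W c y : ℚ) * h y) := by
    intro y hy
    rw [← Finset.sum_mul]
    congr 1
    rw [mem_Mon] at hy
    have : ((∑ i, y i : ℕ) : ℚ) = ((l + 1 : ℕ) : ℚ) := by rw [hy]
    push_cast at this
    exact this.symm
  rw [Finset.sum_congr rfl h1, Finset.sum_comm]
  refine Finset.sum_congr rfl fun i _ => ?_
  rw [sum_shift l i (fun y => (W c y : ℚ) * h y), Finset.mul_sum]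
  refine Finset.sum_congr rfl fun y _ => ?_
  have h2 : (((y i + 1) * W c (y + Finsupp.single i 1) : ℕ) : ℚ) =
      (((c i + 1) * W (c + Finsupp.single i 1) y : ℕ) : ℚ) := by rw [W_step]
  push_cast at h2
  rw [← mul_assoc, h2, mul_assoc]

theorem incr_thm : S_INCR := by
  intro n k l
  induction l generalizing k with
  | zero =>
    intro h _ c _ i j _ _
    have h0 : Mon n 0 = {0} := by
      ext y
      rw [mem_Mon', Finset.mem_singleton, Finsupp.degree_eq_zero_iff]
    rw [h0]
    simp [W]
  | succ l ih =>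
    intro h hmono c hc i j hij hci
    have hc' : mv j i c ∈ Mon n k := by
      have h1 : c = c - Finsupp.single i 1 + Finsupp.single i 1 := (sub_single_add hci).symm
      rw [mem_Mon'] at hc ⊢
      unfold mv
      rw [h1, map_add, Finsupp.degree_single] at hc
      rw [map_add, Finsupp.degree_single]
      exact hc
    have hl : (0 : ℚ) < (l : ℚ) + 1 := by positivity
    rw [← mul_le_mul_iff_right₀ hl, rec_thm n k l h c hc, rec_thm n k l h (mv j i c) hc']
    have hne : i ≠ j := ne_of_lt hij
    -- the coefficients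
    have hco : ∀ t : Fin n, (((mv j i c) t : ℕ) : ℚ) =
        (c t : ℚ) + (if t = j then 1 else 0) - (if t = i then 1 else 0) :=
      fun t => mv_cast c i j hci t
    set c' := mv j i c with hc'def
    set G : (Fin n →₀ ℕ) → Fin n → ℚ := fun a t =>
      ∑ y ∈ Mon n l, (W a y : ℚ) * h (y + Finsupp.single t 1) with hG
    have hht : ∀ t : Fin n, ∀ y ∈ Mon n l, ∀ i' j' : Fin n, i' < j' → 0 < y i' →
        h (y + Finsupp.single t 1) ≤ h (mv j' i' y + Finsupp.single t 1) := by
      intro t y hy i' j' hij' hy'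
      rw [← mv_add j' hy']
      refine hmono _ (add_single_mem hy t) i' j' hij' ?_
      simp [hy']
    -- first inequality
    have hA : ∀ t : Fin n, G (c + Finsupp.single t 1) t ≤ G (c' + Finsupp.single t 1) t := by
      intro t
      have := ih (k + 1) (fun y => h (y + Finsupp.single t 1)) (hht t) (c + Finsupp.single t 1)
        (add_single_mem hc t) i j hij (by simp [hci])
      rw [mv_add j hci] at this
      exact this
    have hB : G (c' + Finsupp.single i 1) i ≤ G (c' + Finsupp.single j 1) j := by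
      have h1 := ih (k + 1) (fun y => h (y + Finsupp.single j 1)) (hht j)
        (c' + Finsupp.single i 1) (add_single_mem hc' i) i j hij (by simp)
      rw [mv_add_single] at h1
      refine le_trans ?_ h1
      refine Finset.sum_le_sum fun y hy => ?_
      refine mul_le_mul_of_nonneg_left ?_ (Nat.cast_nonneg _)
      have h2 := hmono (y + Finsupp.single i 1) (add_single_mem hy i) i j hij (by simp)
      rw [mv_add_single] at h2
      exact h2
    have hsum : ∑ t : Fin n, (((c' t : ℕ) : ℚ) + 1) * G (c' + Finsupp.single t 1) t =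
        ∑ t : Fin n, ((c t : ℚ) + 1) * G (c' + Finsupp.single t 1) t +
          G (c' + Finsupp.single j 1) j - G (c' + Finsupp.single i 1) i := by
      have h1 : ∀ t : Fin n, (((c' t : ℕ) : ℚ) + 1) * G (c' + Finsupp.single t 1) t =
          ((c t : ℚ) + 1) * G (c' + Finsupp.single t 1) t +
            (if t = j then G (c' + Finsupp.single t 1) t else 0) -
            (if t = i then G (c' + Finsupp.single t 1) t else 0) := by
        intro t
        rw [hco t]
        split_ifs <;> ring
      rw [Finset.sum_congr rfl fun t _ => h1 t, Finset.sum_sub_distrib, Finset.sum_add_distrib]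
      simp
    have hsum2 : ∑ t : Fin n, ((c t : ℚ) + 1) * G (c + Finsupp.single t 1) t ≤
        ∑ t : Fin n, ((c t : ℚ) + 1) * G (c' + Finsupp.single t 1) t :=
      Finset.sum_le_sum fun t _ => mul_le_mul_of_nonneg_left (hA t) (by positivity)
    change ∑ t : Fin n, ((c t : ℚ) + 1) * G (c + Finsupp.single t 1) t ≤
      ∑ t : Fin n, (((c' t : ℕ) : ℚ) + 1) * G (c' + Finsupp.single t 1) t
    rw [hsum]
    linarith

end Pool.Agent.TH206.Fro
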