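import Pool.Agent.H15.G.R_seed8.TH206.Fro.Lin2

/-!
The tangent space argument: the multiples of general forms span.
-/

set_option autoImplicit false

namespace Pool.Agent.TH206.Fro

open Module MvPolynomial

/-- The product inequality for spaces of forms. -/
def SubM (n k d : ℕ) : Prop :=
  ∀ (F : Type) [Field F] (L R : Submodule F (MvPolynomial (Fin n) F)),
    L ≤ homogeneousSubmodule (Fin n) F k → R ≤ homogeneousSubmodule (Fin n) F d →
    0 < finrank F L → finrank F L + (Mon n d).card = finrank F R + (Mon n k).card →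
    finrank F L * (Mon n (k + d)).card ≤ finrank F ↥(L * R) * (Mon n k).card

lemma subM_of_monM {n k d : ℕ} (hI : S_INIT) (h : MonM n k d) : SubM n k d := by
  intro F _ L R hL hR h0 hc
  obtain ⟨A, B, hA, hB, h1, h2, h3⟩ := hI F n k d L R hL hR
  have h4 : A.Nonempty := Finset.card_pos.1 (by omega)
  have h5 := h A B hA hB h4 (by omega)
  rw [h1] at h5
  exact h5.trans (Nat.mul_le_mul_right _ h3)

section

variable {F : Type*} [Field F] {n : ℕ}

/-- the coefficients in degree `D` -/
noncomputable def cf (D : ℕ) : MvPolynomial (Fin n) F →ₗ[F] (Dg n D → F) :=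
  LinearMap.pi fun u => MvPolynomial.lcoeff F u.1

lemma cf_apply {D : ℕ} (x : MvPolynomial (Fin n) F) (u : Dg n D) : cf D x u = x.coeff u.1 := rfl

lemma cf_inj {D : ℕ} {x : MvPolynomial (Fin n) F} (hx : x ∈ homogeneousSubmodule (Fin n) F D)
    (h : cf D x = 0) : x = 0 := by
  ext u
  rw [MvPolynomial.coeff_zero]
  by_cases hu : Finsupp.degree u = D
  · exact congrFun h ⟨u, hu⟩
  · rw [mem_homogeneousSubmodule] at hx
    exact hx.coeff_eq_zero hu

lemma finrank_map_cf {D : ℕ} (V : Submodule F (MvPolynomial (Fin n) F))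
    (hV : V ≤ homogeneousSubmodule (Fin n) F D) : finrank F (V.map (cf D)) = finrank F V := by
  have h : Function.Injective ((cf D).domRestrict V) := by
    rw [← LinearMap.ker_eq_bot, LinearMap.ker_eq_bot']
    intro x hx
    exact Subtype.ext (cf_inj (hV x.2) hx)
  have h2 := LinearMap.finrank_range_of_inj h
  rw [LinearMap.range_domRestrict] at h2
  exact h2

lemma lam_eq {D : ℕ} (G : Dg n D → F) (x : MvPolynomial (Fin n) F) :
    lam G x = ∑ u, G u * cf D x u := by
  rw [lam_apply]
  rfl

end

lemma finrank_ker_mulVec {F : Type*} [Field F] {α γ : Type*} [Fintype α] [Fintype γ]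
    (H : Matrix α γ F) : finrank F (LinearMap.ker H.mulVecLin) + H.rank = Fintype.card γ := by
  have := H.mulVecLin.finrank_range_add_finrank_ker
  rw [finrank_fintype_fun_eq_card] at this
  unfold Matrix.rank
  omega

variable {n D : ℕ} {β : Type} [Fintype β] (d : β → ℕ) (K : Type) [Field K]

/-- the field of rational functions in the coefficients -/
abbrev KK (n : ℕ) {β : Type} (d : β → ℕ) (K : Type) [Field K] :=
  FractionRing (MvPolynomial (Io n d) K)

/-- the generic matrix -/
noncomputable def MX (n D : ℕ) {β : Type} (d : β → ℕ) (K : Type) [Field K] :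
    Matrix (Ro n D d) (Dg n D) (MvPolynomial (Io n d) K) := Mx d D X

/-- the generic matrix over the field of rational functions -/
noncomputable def MK (n D : ℕ) {β : Type} (d : β → ℕ) (K : Type) [Field K] :
    Matrix (Ro n D d) (Dg n D) (KK n d K) := (MX n D d K).map (algebraMap _ _)

omit [Fintype β] in
open Classical in
lemma deriv_col (G : Dg n D → MvPolynomial (Io n d) K)
    (hG : ∀ p, ∑ u, MX n D d K p u * G u = 0) (s : Io n d) (p : Ro n D d) :
    ∑ u, MX n D d K p u * (pderiv s (G u)) =
      -(if h : p.1 = s.1 then Hk G (d s.1) (h ▸ p.2) s.2 else 0) := by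
  obtain ⟨i, a⟩ := p
  have h1 := hG ⟨i, a⟩
  unfold MX at h1 ⊢
  rw [sum_Mx] at h1
  rw [sum_Mx (G := fun u => pderiv s (G u))]
  have h2 := congrArg (pderiv s) h1
  rw [map_zero, map_sum] at h2
  have h3 : ∀ m : Dg n (d i), pderiv s (X (⟨i, m⟩ : Io n d) * Hk G (d i) a m) =
      X (⟨i, m⟩ : Io n d) * Hk (fun u => pderiv s (G u)) (d i) a m +
        Hk G (d i) a m * (if (⟨i, m⟩ : Io n d) = s then 1 else 0) := by
    intro m
    rw [Derivation.leibniz, pderiv_X, smul_eq_mul, smul_eq_mul]
    congr 1
    congr 1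
    rw [Pi.single_apply]
  rw [Finset.sum_congr rfl fun m _ => h3 m, Finset.sum_add_distrib] at h2
  rw [eq_neg_of_add_eq_zero_left h2]
  congr 1
  obtain ⟨j, m0⟩ := s
  by_cases h : i = j
  · subst h
    rw [dif_pos rfl, Finset.sum_eq_single m0]
    · simp
    · intro m _ hm
      rw [if_neg, mul_zero]
      intro h
      exact hm (eq_of_heq (Sigma.mk.inj h).2)
    · intro h; exact absurd (Finset.mem_univ _) h
  · rw [dif_neg h]
    refine Finset.sum_eq_zero fun m _ => ?_
    rw [if_neg, mul_zero]
    intro h'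
    exact h (Sigma.mk.inj h').1

end Pool.Agent.TH206.Fro
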