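import Pool.Agent.H15.G.R_seed8.TH206.Fro.Lin3

/-!
The multiples of general forms span, if there are enough of them.
-/

set_option autoImplicit false

namespace Pool.Agent.TH206.Fro

open Module MvPolynomial

variable {n D : ℕ} {β : Type} [Fintype β] (d : β → ℕ) (K : Type) [Field K]

/-- The span of a kernel vector and of its derivatives. -/
noncomputable def TT (G : Dg n D → MvPolynomial (Io n d) K) :
    Submodule (KK n d K) (Dg n D → KK n d K) :=
  Submodule.span (KK n d K) (insert (fun u => algebraMap _ (KK n d K) (G u))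
    (Set.range fun s : Io n d => fun u => algebraMap _ (KK n d K) (pderiv s (G u))))

lemma rank_le_TT (G : Dg n D → MvPolynomial (Io n d) K) (hG0 : G ≠ 0)
    (hG : ∀ p, ∑ u, MX n D d K p u * G u = 0) :
    1 + ∑ i, (Hk (fun u => algebraMap _ (KK n d K) (G u)) (d i)).rank ≤
      finrank (KK n d K) (TT d K G) := by
  classical
  have hinj := IsFractionRing.injective (MvPolynomial (Io n d) K) (KK n d K)
  set g : Dg n D → KK n d K := fun u => algebraMap _ (KK n d K) (G u) with hg
  let Ψ := (MK n D d K).mulVecLin
  have h1 := (Ψ.domRestrict (TT d K G)).finrank_range_add_finrank_ker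
  rw [LinearMap.range_domRestrict] at h1
  have hgT : g ∈ TT d K G := Submodule.subset_span (Set.mem_insert _ _)
  have hg0 : g ≠ 0 := by
    intro h
    apply hG0
    funext u
    have := congrFun h u
    exact hinj (by rw [Pi.zero_apply, map_zero]; exact this)
  have hΨg : Ψ g = 0 := by
    funext p
    have := congrArg (algebraMap _ (KK n d K)) (hG p)
    rw [map_zero, map_sum] at this
    change ∑ u, MK n D d K p u * g u = 0
    rw [← this]
    exact Finset.sum_congr rfl fun u _ => by rw [map_mul]; rfl
  have h2 : 1 ≤ finrank (KK n d K) (LinearMap.ker (Ψ.domRestrict (TT d K G))) := by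
    rw [Nat.one_le_iff_ne_zero]
    intro h
    rw [Submodule.finrank_eq_zero] at h
    have : (⟨g, hgT⟩ : TT d K G) ∈ LinearMap.ker (Ψ.domRestrict (TT d K G)) := by
      rw [LinearMap.mem_ker]
      exact hΨg
    rw [h, Submodule.mem_bot] at this
    exact hg0 (congrArg (fun z => z.1) this)
  have h3 : ∑ i, (Hk g (d i)).rank ≤ finrank (KK n d K) ((TT d K G).map Ψ) := by
    apply sum_rank_le
    intro i m
    rw [← Submodule.neg_mem_iff]
    refine ⟨fun u => algebraMap _ (KK n d K) (pderiv (⟨i, m⟩ : Io n d) (G u)),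
      Submodule.subset_span (Set.mem_insert_of_mem _ ⟨_, rfl⟩), ?_⟩
    funext p
    have h4 := congrArg (algebraMap _ (KK n d K)) (deriv_col d K G hG ⟨i, m⟩ p)
    rw [map_sum] at h4
    change ∑ u, MK n D d K p u * algebraMap _ (KK n d K) (pderiv (⟨i, m⟩ : Io n d) (G u)) = _
    have h5 : ∑ u, MK n D d K p u * algebraMap _ (KK n d K) (pderiv (⟨i, m⟩ : Io n d) (G u)) =
        ∑ u, algebraMap _ (KK n d K) (MX n D d K p u * pderiv (⟨i, m⟩ : Io n d) (G u)) :=
      Finset.sum_congr rfl fun u _ => by rw [map_mul]; rfl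
    rw [h5, h4, map_neg, Pi.neg_apply]
    congr 1
    by_cases h : p.1 = i
    · rw [dif_pos h, dif_pos h]
      rfl
    · rw [dif_neg h, dif_neg h, map_zero]
  omega

omit [Fintype β] in
/-- The relations are orthogonal to the tangent space. -/
lemma orth_TT (G : Dg n D → MvPolynomial (Io n d) K) (e : ℕ)
    (v : Dc n D e → KK n d K) (w : Dg n e → KK n d K)
    (hv : ∀ m, ∑ a, v a * algebraMap _ (KK n d K) (Hk G e a m) = 0)
    (hw : ∀ a, ∑ m, w m * algebraMap _ (KK n d K) (Hk G e a m) = 0)
    (y : Dg n D → KK n d K) (hy : y ∈ TT d K G) :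
    ∑ a, ∑ m, v a * w m * y (addE a m) = 0 := by
  unfold TT at hy
  induction hy using Submodule.span_induction with
  | mem y hy =>
    rcases hy with rfl | ⟨s, rfl⟩
    · rw [Finset.sum_comm]
      refine Finset.sum_eq_zero fun m _ => ?_
      have h1 : ∑ a, v a * w m * algebraMap _ (KK n d K) (G (addE a m)) =
          w m * ∑ a, v a * algebraMap _ (KK n d K) (Hk G e a m) := by
        rw [Finset.mul_sum]
        exact Finset.sum_congr rfl fun a _ => by unfold Hk; ring
      rw [h1, hv, mul_zero]
    · exact deriv_orth (pderiv s) (Hk G e) v w hv hw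
  | zero => simp
  | add x y _ _ hx hy =>
    simp only [Pi.add_apply, mul_add, Finset.sum_add_distrib, hx, hy, add_zero]
  | smul c x _ hx =>
    have : ∑ a, ∑ m, v a * w m * (c • x) (addE a m) =
        c * ∑ a, ∑ m, v a * w m * x (addE a m) := by
      rw [Finset.mul_sum]
      refine Finset.sum_congr rfl fun a _ => ?_
      rw [Finset.mul_sum]
      refine Finset.sum_congr rfl fun m _ => ?_
      rw [Pi.smul_apply, smul_eq_mul]
      ring
    rw [this, hx, mul_zero]

omit [Fintype β] in
lemma TT_le (G : Dg n D → MvPolynomial (Io n d) K) (e : ℕ) (he : e ≤ D)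
    (hM : SubM n (D - e) e) :
    finrank (KK n d K) (TT d K G) * Fintype.card (Dc n D e) ≤
      (Hk (fun u => algebraMap _ (KK n d K) (G u)) e).rank * (Mon n D).card := by
  classical
  set g : Dg n D → KK n d K := fun u => algebraMap _ (KK n d K) (G u) with hg
  set H := Hk g e with hH
  let L := (LinearMap.ker (H.transpose).mulVecLin).map (tp (fun a : Dc n D e => a.1))
  let R := (LinearMap.ker H.mulVecLin).map (tp (fun m : Dg n e => m.1))
  have hjL : Function.Injective (fun a : Dc n D e => a.1) := Subtype.val_injective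
  have hjR : Function.Injective (fun m : Dg n e => m.1) := Subtype.val_injective
  have hL1 : finrank (KK n d K) L + H.rank = Fintype.card (Dc n D e) := by
    have h1 := finrank_ker_mulVec H.transpose
    rw [Matrix.rank_transpose] at h1
    rw [← h1]
    congr 1
    exact (LinearEquiv.finrank_eq (Submodule.equivMapOfInjective _ (tp_inj hjL) _)).symm
  have hR1 : finrank (KK n d K) R + H.rank = Fintype.card (Dg n e) := by
    have h1 := finrank_ker_mulVec H
    rw [← h1]
    congr 1
    exact (LinearEquiv.finrank_eq (Submodule.equivMapOfInjective _ (tp_inj hjR) _)).symm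
  have hL2 : L ≤ homogeneousSubmodule (Fin n) (KK n d K) (D - e) := by
    rintro _ ⟨v, _, rfl⟩
    exact tp_hom (fun a => by have := a.2; omega) v
  have hR2 : R ≤ homogeneousSubmodule (Fin n) (KK n d K) e := by
    rintro _ ⟨v, _, rfl⟩
    exact tp_hom (fun a => a.2) v
  have hLR : L * R ≤ homogeneousSubmodule (Fin n) (KK n d K) D := by
    rw [Submodule.mul_le]
    intro p hp q hq
    have h1 := hL2 hp
    have h2 := hR2 hq
    rw [mem_homogeneousSubmodule] at h1 h2 ⊢
    have h3 := h1.mul h2
    rwa [Nat.sub_add_cancel he] at h3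
  have horth : finrank (KK n d K) (TT d K G) + finrank (KK n d K) ↥(L * R) ≤ (Mon n D).card := by
    rw [← finrank_map_cf (L * R) hLR, ← card_Dg]
    apply finrank_add_le_of_orth
    rintro y hy _ ⟨x, hx, rfl⟩
    rw [← lam_eq]
    refine Submodule.mul_induction_on hx ?_ ?_
    · rintro _ ⟨v, hv, rfl⟩ _ ⟨w, hw, rfl⟩
      rw [lam_mul]
      refine orth_TT d K G e v w ?_ ?_ y hy
      · intro m
        have := congrFun (LinearMap.mem_ker.1 hv) m
        simp only [Matrix.mulVecLin_apply, Matrix.mulVec, dotProduct, Matrix.transpose_apply,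
          Pi.zero_apply] at this
        rw [← this]
        exact Finset.sum_congr rfl fun a _ => mul_comm _ _
      · intro a
        have := congrFun (LinearMap.mem_ker.1 hw) a
        simp only [Matrix.mulVecLin_apply, Matrix.mulVec, dotProduct,
          Pi.zero_apply] at this
        rw [← this]
        exact Finset.sum_congr rfl fun a _ => mul_comm _ _
    · intro x z hx hz
      rw [map_add, hx, hz, add_zero]
  rw [card_Dc n D e he] at hL1 ⊢
  rw [card_Dg] at hR1
  rcases Nat.eq_zero_or_pos (finrank (KK n d K) L) with h0 | h0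
  · have h1 : H.rank = (Mon n (D - e)).card := by omega
    rw [h1, mul_comm ((Mon n (D - e)).card)]
    exact Nat.mul_le_mul_right _ (by omega)
  · have h1 := hM (KK n d K) L R hL2 hR2 h0 (by omega)
    rw [Nat.sub_add_cancel he] at h1
    obtain ⟨y, hy⟩ : ∃ y, y = finrank (KK n d K) ↥(L * R) := ⟨_, rfl⟩
    obtain ⟨t, ht⟩ : ∃ t, t = finrank (KK n d K) (TT d K G) := ⟨_, rfl⟩
    rw [← hy] at h1 horth
    rw [← ht] at horth ⊢
    have h2 : (finrank (KK n d K) L + H.rank) * (Mon n D).card =
      (Mon n (D - e)).card * (Mon n D).card := by rw [hL1]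
    have h3 : (t + y) * (Mon n (D - e)).card ≤ (Mon n D).card * (Mon n (D - e)).card :=
      Nat.mul_le_mul_right _ horth
    nlinarith

/-- If there are enough forms, then the multiples of the generic forms span. -/
theorem ker_zero (hn : 1 ≤ n) (hM : ∀ i, d i ≤ D → SubM n (D - d i) (d i))
    (hc : (Mon n D).card ≤ Fintype.card (Ro n D d))
    (F : Dg n D → KK n d K) (hF : ∀ p, ∑ u, MK n D d K p u * F u = 0) : F = 0 := by
  classical
  by_contra hF0
  have hinj := IsFractionRing.injective (MvPolynomial (Io n d) K) (KK n d K)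
  obtain ⟨s, G, hs, hG⟩ := clear_den (R := MvPolynomial (Io n d) K) F
  have hs' : algebraMap _ (KK n d K) s ≠ 0 := fun h => hs (hinj (by rw [h, map_zero]))
  have hG0 : G ≠ 0 := by
    rintro rfl
    apply hF0
    funext u
    have := hG u
    rw [Pi.zero_apply, map_zero] at this
    exact (mul_eq_zero.1 this.symm).resolve_left hs'
  have hG1 : ∀ p, ∑ u, MX n D d K p u * G u = 0 := by
    intro p
    apply hinj
    rw [map_zero, map_sum]
    have : ∑ u, algebraMap _ (KK n d K) (MX n D d K p u * G u) =
        algebraMap _ (KK n d K) s * ∑ u, MK n D d K p u * F u := by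
      rw [Finset.mul_sum]
      refine Finset.sum_congr rfl fun u _ => ?_
      rw [map_mul, hG]
      change MK n D d K p u * _ = _
      ring
    rw [this, hF, mul_zero]
  have h1 := rank_le_TT d K G hG0 hG1
  have h2 : ∀ i, finrank (KK n d K) (TT d K G) * Fintype.card (Dc n D (d i)) ≤
      (Hk (fun u => algebraMap _ (KK n d K) (G u)) (d i)).rank * (Mon n D).card := by
    intro i
    by_cases h : d i ≤ D
    · exact TT_le d K G (d i) h (hM i h)
    · rw [card_Dc' n D (d i) h, mul_zero]
      exact Nat.zero_le _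
  have h3 := Finset.sum_le_sum (fun i (_ : i ∈ Finset.univ) => h2 i)
  rw [← Finset.mul_sum, ← Finset.sum_mul] at h3
  have h4 : Fintype.card (Ro n D d) = ∑ i, Fintype.card (Dc n D (d i)) := Fintype.card_sigma
  rw [← h4] at h3
  have h5 : 0 < (Mon n D).card := by
    rw [card_Mon]
    exact Nat.choose_pos (by omega)
  have h6 := (Nat.mul_le_mul_left (finrank (KK n d K) (TT d K G)) hc).trans h3
  have h7 := Nat.le_of_mul_le_mul_right h6 h5
  omega

end Pool.Agent.TH206.Fro
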