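import Pool.Agent.H15.G.R_seed8.TH206.Fro.Defs

/-!
Statements of the lemmas (as propositions), to be proved in separate files.
-/

set_option autoImplicit false

namespace Pool.Agent.TH206.Fro

open Finset MvPolynomial
open scoped Pointwise

/-- Compression: the sets may be replaced by strongly stable sets. -/
def S_COMP : Prop :=
  ∀ (n k d : ℕ) (A B : Finset (Fin n →₀ ℕ)), A ⊆ Mon n k → B ⊆ Mon n d →
    A.Nonempty → B.Nonempty →
    ∃ A' B' : Finset (Fin n →₀ ℕ), A' ⊆ Mon n k ∧ B' ⊆ Mon n d ∧ Stable A' ∧ Stable B' ∧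
      A'.card = A.card ∧ B'.card = B.card ∧ (A' + B').card ≤ (A + B).card

/-- Passing from spaces of forms to sets of monomials. -/
def S_INIT : Prop :=
  ∀ (F : Type) [Field F] (n k d : ℕ) (L R : Submodule F (MvPolynomial (Fin n) F)),
    L ≤ homogeneousSubmodule (Fin n) F k → R ≤ homogeneousSubmodule (Fin n) F d →
    ∃ A B : Finset (Fin n →₀ ℕ), A ⊆ Mon n k ∧ B ⊆ Mon n d ∧
      A.card = Module.finrank F L ∧ B.card = Module.finrank F R ∧
      (A + B).card ≤ Module.finrank F ↥(L * R)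

/-- The sum of the weights with one entry fixed. -/
def S_VAND : Prop :=
  ∀ (n k d : ℕ), 1 ≤ n → ∀ c ∈ Mon n k, ∑ c' ∈ Mon n d, W c c' = (k + d + n - 1).choose d

/-- The sum of the weights with fixed product. -/
def S_SPLIT : Prop :=
  ∀ (n k d : ℕ), ∀ u ∈ Mon n (k + d),
    ∑ p ∈ (Mon n k ×ˢ Mon n d).filter (fun p => p.1 + p.2 = u), W p.1 p.2 = (k + d).choose k

/-- The recursion for the weights, summed against a function. -/
def S_REC : Prop :=
  ∀ (n k l : ℕ) (h : (Fin n →₀ ℕ) → ℚ), ∀ c ∈ Mon n k,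
    ((l : ℚ) + 1) * ∑ y ∈ Mon n (l + 1), (W c y : ℚ) * h y =
      ∑ i : Fin n, ((c i : ℚ) + 1) *
        ∑ y ∈ Mon n l, (W (c + Finsupp.single i 1) y : ℚ) * h (y + Finsupp.single i 1)

/-- Averages of increasing functions are increasing. -/
def S_INCR : Prop :=
  ∀ (n k l : ℕ) (h : (Fin n →₀ ℕ) → ℚ),
    (∀ y ∈ Mon n l, ∀ i j : Fin n, i < j → 0 < y i → h y ≤ h (mv j i y)) →
    ∀ c ∈ Mon n k, ∀ i j : Fin n, i < j → 0 < c i →
      ∑ y ∈ Mon n l, (W c y : ℚ) * h y ≤ ∑ y ∈ Mon n l, (W (mv j i c) y : ℚ) * h y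

/-- The FKG inequality for the uniform measure on the monomials of degree `k`. -/
def S_FKG : Prop :=
  ∀ (n k : ℕ) (A : Finset (Fin n →₀ ℕ)) (g : (Fin n →₀ ℕ) → ℚ), A ⊆ Mon n k → Stable A →
    (∀ c ∈ Mon n k, 0 ≤ g c) →
    (∀ c ∈ Mon n k, ∀ i j : Fin n, i < j → 0 < c i → g c ≤ g (mv j i c)) →
    ((Mon n k).card : ℚ) * ∑ c ∈ A, g c ≤ (A.card : ℚ) * ∑ c ∈ Mon n k, g c

/-- Negative correlation. -/
def S_ASSOC : Prop :=
  ∀ (n k d : ℕ), 1 ≤ n → ∀ A B : Finset (Fin n →₀ ℕ), A ⊆ Mon n k → B ⊆ Mon n d → Stable A →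
    Stable B →
    (∑ c ∈ A, ∑ y ∈ Mon n d \ B, W c y) * (Mon n d).card ≤
      A.card * (Mon n d \ B).card * (k + d + n - 1).choose d

/-- The spectral gap. -/
def S_GAP : Prop :=
  ∀ (n k : ℕ), 1 ≤ n → ∀ A : Finset (Fin n →₀ ℕ), A ⊆ Mon n k →
    n * A.card * (Mon n k \ A).card * (k + k + n - 1).choose k ≤
      (n + k) * (Mon n k).card * ∑ c ∈ A, ∑ c' ∈ Mon n k \ A, W c c'

/-- The product inequality for strongly stable sets. -/
def S_MAIN : Prop :=
  ∀ (n k d : ℕ), 1 ≤ n → k < d →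
    2 * (n + k) * (n + k - 1).choose k ≤ n * (n + d - 1).choose d →
    ∀ A B : Finset (Fin n →₀ ℕ), A ⊆ Mon n k → B ⊆ Mon n d → Stable A → Stable B →
    A.card + (Mon n d).card = B.card + (Mon n k).card →
    A.card * (Mon n (k + d)).card ≤ (A + B).card * (Mon n k).card

/-- The numerical condition. -/
def S_NUM : Prop :=
  ∀ (n k d : ℕ), k < d → 2 * k + 2 ≤ n →
    2 * (n + k) * (n + k - 1).choose k ≤ n * (n + d - 1).choose d

end Pool.Agent.TH206.Fro
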