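import Pool.Agent.H15.G.R_seed8.TH206.Fro.Lin4

/-!
Further statements of lemmas (as propositions), to be proved in separate files.
-/

set_option autoImplicit false

namespace Pool.Agent.TH206.Fro

open Finset MvPolynomial
open scoped Pointwise

/-- A nonzero minor of maximal size of the generic matrix. -/
def S_MINOR : Prop :=
  ∀ (n D : ℕ), 1 ≤ n → ∀ (β : Type) [Fintype β] (d : β → ℕ) (K : Type) [Field K],
    (∀ i, d i ≤ D → SubM n (D - d i) (d i)) →
    ∃ (f : Fin (min (Fintype.card (Ro n D d)) (Mon n D).card) → Ro n D d)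
      (g : Fin (min (Fintype.card (Ro n D d)) (Mon n D).card) → Dg n D),
      ((MX n D d K).submatrix f g).det ≠ 0

/-- The ideal in degree `D` and the matrix of the multiples. -/
def S_HILB : Prop :=
  ∀ (n D r : ℕ) (d : Fin r → ℕ) (K : Type) [Field K] (f : Fin r → MvPolynomial (Fin n) K),
    (∀ i, (f i).IsHomogeneous (d i)) →
    Module.finrank K ↥(Submodule.restrictScalars K (Ideal.span (Set.range f)) ⊓
      MvPolynomial.homogeneousSubmodule (Fin n) K D) =
      (Mx d D (fun s : Io n d => (f s.1).coeff s.2.1)).rank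

/-- The dimension of the space of forms. -/
def S_DIM : Prop :=
  ∀ (n D : ℕ) (K : Type) [Field K],
    Module.finrank K (MvPolynomial.homogeneousSubmodule (Fin n) K D) = (Mon n D).card

/-- The coefficient of `t ^ k` in `(1 - t) ^ (-n) * ∏ i, (1 - t ^ d i)`. -/
noncomputable def co (n : ℕ) {r : ℕ} (d : Fin r → ℕ) (k : ℕ) : ℤ :=
  PowerSeries.coeff k
    ((PowerSeries.mk fun _ => (1 : ℤ)) ^ n * ∏ i : Fin r, (1 - PowerSeries.X ^ d i))

/-- The coefficients of the series in small degrees. -/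
def S_CO : Prop :=
  ∀ (n r D : ℕ) (d : Fin r → ℕ), 1 ≤ n → (∀ i, D < 2 * d i) → ∀ j ≤ D,
    co n d j = ((Mon n j).card : ℤ) -
      ∑ i, (if d i ≤ j then ((Mon n (j - d i)).card : ℤ) else 0)

/-- After the first coefficient that is not positive no coefficient is positive. -/
def S_SIGN : Prop :=
  ∀ (n r D : ℕ) (d : Fin r → ℕ), 1 ≤ n → (∀ i, D < 2 * d i) → ∀ j j', j ≤ j' → j' ≤ D →
    ((Mon n j).card : ℤ) - ∑ i, (if d i ≤ j then ((Mon n (j - d i)).card : ℤ) else 0) ≤ 0 →
    ((Mon n j').card : ℤ) - ∑ i, (if d i ≤ j' then ((Mon n (j' - d i)).card : ℤ) else 0) ≤ 0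

end Pool.Agent.TH206.Fro
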